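import Pool.Agent.AML.F.Defs
import Pool.Agent.AML.G.Defs

/-! # Block M: the relation between `V` and `W` (definitions).

A point `(x, f, h)`, `|x| ≤ 1/2`, `f = chi k y`, of `V` corresponds to the flag point
`(φ, (h, 1 - r, r u, r (1 - u)))` with `r = 2|x| (1 - |y|) + |y|` and `y = r * Yc φ u`,
`tile φ = k`, `side φ` = side of `x`. -/

set_option linter.style.longLine false

open Topology Set Relation

namespace Pool.AML

noncomputable section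

/-- radial coordinate. -/
def rad (x y : ℝ) : ℝ := 2 * |x| * (1 - |y|) + |y|

/-- `w ∈ W` and `p ∈ V` correspond, with tile coordinate `y` and arc parameter `u`. -/
def Rl (w : W) (p : V) (y u : ℝ) : Prop :=
  0 ≤ u ∧ u ≤ 1 ∧ |y| ≤ 1 ∧ |p.1.1| ≤ 1 / 2 ∧ (w.1.1.1 = true → 0 ≤ p.1.1) ∧ (w.1.1.1 = false → p.1.1 ≤ 0) ∧
  p.1.2.1 = chi (tile w.1.1) y ∧ p.1.2.2 = w.1.2 0 ∧ w.1.2 1 = 1 - rad p.1.1 y ∧
  w.1.2 2 = rad p.1.1 y * u ∧ w.1.2 3 = rad p.1.1 y * (1 - u) ∧ y = rad p.1.1 y * Yc w.1.1 u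

def Rel (w : W) (p : V) : Prop := ∃ y u : ℝ, Rl w p y u

/-- `p` is related to `w` after a translation. -/
def Lf (w : W) (p : V) : Prop := ∃ n : ℤ, ∃ p' : V, p'.1.1 = p.1.1 + n ∧ p'.1.2.1 = TTn n p.1.2.1 ∧
  p'.1.2.2 = p.1.2.2 ∧ Rel w p'

/-- run (right end) containing the levels congruent to `lev k`. -/
def cclTab : List ℕ := [45, 1, 38, 3, 47, 5, 6, 48, 8, 36, 10, 50, 43, 13, 52, 15, 40, 17, 1, 3, 5, 6, 8, 10,
  13, 15, 17, 1, 5, 8, 15, 1, 8, 15, 8, 8, 36, 36, 38, 36, 40, 38, 36, 43, 40, 45, 38, 47, 48, 36, 50, 43,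
  52, 40]

def ccl (k : Fin 54) : Fin 54 := ⟨(cclTab.getD k 0) % 54, Nat.mod_lt _ (by norm_num)⟩

end

end Pool.AML
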