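import Mathlib

/-! [AML-M0] General lemma: a relation `R` between two spaces inducing a homeomorphism of quotients.

Define `F : Quot rA → Quot rB` by `F [a] = [b]` for any `b` with `R a b` (`hA`, `Classical.choose`;
well defined by `hR`, `Quot.sound`/`Quot.eq`: `Quot.mk r x = Quot.mk r y ↔ EqvGen r x y`). It is injective by `hR`,
surjective by `hB`. `F` is continuous: for `D' ⊆ Quot rB` closed, `D = mk ⁻¹' D'` is closed and saturated, and
`mk ⁻¹' (F ⁻¹' D') = {a | ∃ b ∈ D, R a b}` (use `hR` with `a = a'`: all `b` related to `a` are equivalent), closed by `hclA`.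
`F` is a closed map: for `C' ⊆ Quot rA` closed, `C = mk ⁻¹' C'`, and
`mk ⁻¹' (F '' C') = {b | ∃ a ∈ C, ∃ b', R a b' ∧ EqvGen rB b' b}`, closed by `hclB`. Then
`Homeomorph` via `Equiv.toHomeomorphOfContinuousClosed`. -/

set_option linter.style.longLine false

open Topology Set Relation

namespace Pool.AML

theorem relHomeo {A B : Type*} [TopologicalSpace A] [TopologicalSpace B] (rA : A → A → Prop)
    (rB : B → B → Prop) (R : A → B → Prop) (hA : ∀ a, ∃ b, R a b)
    (hB : ∀ b, ∃ a b', R a b' ∧ EqvGen rB b' b)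
    (hR : ∀ a a' b b', R a b → R a' b' → (EqvGen rA a a' ↔ EqvGen rB b b'))
    (hclA : ∀ D : Set B, IsClosed D → (∀ b b', EqvGen rB b b' → b ∈ D → b' ∈ D) →
      IsClosed {a | ∃ b ∈ D, R a b})
    (hclB : ∀ C : Set A, IsClosed C → (∀ a a', EqvGen rA a a' → a ∈ C → a' ∈ C) →
      IsClosed {b | ∃ a ∈ C, ∃ b', R a b' ∧ EqvGen rB b' b}) :
    Nonempty (Quot rA ≃ₜ Quot rB) := by
  classical
  choose g hg using hA
  have hF : ∀ a a' : A, rA a a' → Quot.mk rB (g a) = Quot.mk rB (g a') := fun a a' h =>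
    Quot.eqvGen_sound ((hR a a' _ _ (hg a) (hg a')).1 (EqvGen.rel _ _ h))
  let F : Quot rA → Quot rB := Quot.lift (fun a => Quot.mk rB (g a)) hF
  have key : ∀ a b, R a b → F (Quot.mk rA a) = Quot.mk rB b := fun a b h =>
    Quot.eqvGen_sound ((hR a a _ _ (hg a) h).1 (EqvGen.refl a))
  have hinj : Function.Injective F := by
    intro x y hxy
    obtain ⟨a, rfl⟩ := Quot.exists_rep x
    obtain ⟨a', rfl⟩ := Quot.exists_rep y
    exact Quot.eqvGen_sound ((hR a a' _ _ (hg a) (hg a')).2 (Quot.eqvGen_exact hxy))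
  have hsurj : Function.Surjective F := by
    intro y
    obtain ⟨b, rfl⟩ := Quot.exists_rep y
    obtain ⟨a, b', hab, hb⟩ := hB b
    exact ⟨Quot.mk rA a, (key a b' hab).trans (Quot.eqvGen_sound hb)⟩
  have hqA : IsQuotientMap (Quot.mk rA) := isQuotientMap_quot_mk
  have hqB : IsQuotientMap (Quot.mk rB) := isQuotientMap_quot_mk
  have hcont : Continuous F := by
    rw [continuous_iff_isClosed]
    intro D' hD'
    rw [← hqA.isClosed_preimage]
    have h1 : IsClosed (Quot.mk rB ⁻¹' D') := hqB.isClosed_preimage.2 hD'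
    have h2 := hclA (Quot.mk rB ⁻¹' D') h1 (fun b b' h hb => by
      rw [mem_preimage] at hb ⊢
      rw [← Quot.eqvGen_sound h]
      exact hb)
    have h3 : Quot.mk rA ⁻¹' (F ⁻¹' D') = {a | ∃ b ∈ Quot.mk rB ⁻¹' D', R a b} := by
      ext a
      constructor
      · intro h
        exact ⟨g a, h, hg a⟩
      · rintro ⟨b, hb, hab⟩
        rw [mem_preimage, mem_preimage, key a b hab]
        exact hb
    rw [h3]
    exact h2
  have hclosed : IsClosedMap F := by
    intro C' hC'
    rw [← hqB.isClosed_preimage]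
    have h1 : IsClosed (Quot.mk rA ⁻¹' C') := hqA.isClosed_preimage.2 hC'
    have h2 := hclB (Quot.mk rA ⁻¹' C') h1 (fun b b' h hb => by
      rw [mem_preimage] at hb ⊢
      rw [← Quot.eqvGen_sound h]
      exact hb)
    have h3 : Quot.mk rB ⁻¹' (F '' C') =
        {b | ∃ a ∈ Quot.mk rA ⁻¹' C', ∃ b', R a b' ∧ EqvGen rB b' b} := by
      ext b
      constructor
      · rintro ⟨x, hx, hxb⟩
        obtain ⟨a, rfl⟩ := Quot.exists_rep x
        exact ⟨a, hx, g a, hg a, Quot.eqvGen_exact hxb⟩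
      · rintro ⟨a, ha, b', hab, hb⟩
        exact ⟨Quot.mk rA a, ha, (key a b' hab).trans (Quot.eqvGen_sound hb)⟩
    rw [h3]
    exact h2
  exact ⟨(Equiv.ofBijective F ⟨hinj, hsurj⟩).toHomeomorphOfContinuousClosed hcont hclosed⟩

end Pool.AML
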