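import Pool.Agent.AML.F.F7

/-! [AML-M1] Existence: every `w ∈ W` is related to some `p ∈ V` and every `p ∈ V` in the strip
`|x| ≤ 1/2` is related to some `w ∈ W`.

`rel_mem` (membership in `V`): let `0 ≤ u ≤ 1`, `|x| ≤ 1/2`, side of `x` = side of `φ`, `r = rad x y`, `y = r Yc φ u`,
and suppose that `slit x (chi (tile φ) y)`, i.e. `|x - n| ≤ 1/2`, `chi (tile φ) y = lev j + n`, `cr j`. Then `r = 1` and `u = 0`:
`n = 0`: by `chi_interior` `|y| = 1`, so `rad x y = 1` and `|Yc φ u| = 1`, `u = 0` (`Yc_end`). `n ≠ 0`: then `x = 1/2, n = 1` or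
`x = -1/2, n = -1`, so `r = 1`, `y = Yc φ u`. Left side (`x = 1/2`): `Parc a u = chi .. = lev j + 1 = lev (tt j)`
(`chi_Yc_left`, `lev_tt`), right side: `TT` of it is `lev j`; in both cases `Parc a u` is a level, and `Parc_zero`, `Parc_eq` (a level
is `Parc b 0`) give `u = 0`.
`rel_exists`: `r = 1 - w 1`. If `r = 0`: `y = 0`, `x = 0`, `u = 0`. If `0 < r`: `u = w 2 / r`, `Y = Yc φ u`, `y = r Y`; if `|y| < 1` take
`|x| = r (1 - |Y|) / (2 (1 - r |Y|))` with the sign of the side (`rad x y = r` by `field_simp`), if `|y| = 1` (then `r = |Y| = 1`)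
take `x = 0`. The point is in `V` by `rel_mem` since `w ∈ W`.
`rel_exists'`: given `p = (x, f, h)`: `f = chi k y` (`chi_surj`), side `s = true` if `x ≥ 0`, else `false`; `r = rad x y`; if `r = 0`
take any flag of the side and tile and `u = 0`; if `r > 0`: `|y / r| ≤ 1` because `|y| ≤ r`, and `Yc_cover` gives `φ`, `u`. The point
`w = (φ, (h, 1 - r, r u, r (1 - u)))` is in `W`: if `h = 0` and `r (1 - u) = 1` then `r = 1`, `u = 0`, `y = Yc φ 0`, and
`chi_node_left/right` show that `(x, f)` is on a slit: if `|y| = 1` it is `chi_neg_one`/`chi_one` (`n = 0`); if `|y| < 1`,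
`r = 1` forces `|x| = 1/2`, and `f = lev (nodeC a)` (left) resp. `f = lev (nodeC a) - 1` (right), where `nodeC a` is a level of the
index set which is not crossing `(0,∞)` or not crossing `(1,∞)`: left: `cr (nodeC a) = false` hence `tinv (nodeC a) = some j`
(decide), `f = lev j + 1` with `n = 1`, `x = 1/2`; right: `tinv (nodeC a) = none` (otherwise `|y| = 1`), hence `cr (nodeC a)`, `n = -1`. -/

set_option linter.style.longLine false

open Topology Set Relation

namespace Pool.AML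

theorem M1_level_u {a : Fin 108} {u : ℝ} (hu : 0 ≤ u) (hu1 : u ≤ 1) {j : Fin 54}
    (h : Parc a u = ((lev j : ℝ) : OnePoint ℝ)) : u = 0 := by
  have h1 : ∀ j : Fin 54, nodeC (arcAt j true) = j := by decide +kernel
  have h2 := Parc_zero (arcAt j true)
  rw [h1 j] at h2
  rcases Parc_eq hu hu1 le_rfl zero_le_one (h.trans h2.symm) with h3 | h3 | h3
  · exact h3.2
  · exact absurd h3.2.1 (by norm_num)
  · exact h3.1

theorem M1_slit {x : ℝ} {f : OnePoint ℝ} {n : ℤ} (h : slit (x + n) (TTn n f)) : slit x f := by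
  obtain ⟨m, hm, k, hk, hf⟩ := h
  induction f using OnePoint.rec with
  | infty =>
    rw [TTn_infty] at hf
    exact absurd hf.symm (OnePoint.coe_ne_infty _)
  | coe z =>
    rw [TTn_coe, OnePoint.coe_eq_coe] at hf
    refine ⟨m - n, ?_, k, hk, ?_⟩
    · push_cast
      have e : x - ((m : ℝ) - n) = x + n - m := by ring
      rw [e]
      exact hm
    · rw [OnePoint.coe_eq_coe]
      push_cast
      linarith

theorem M1_X {r Y : ℝ} (hr0 : 0 ≤ r) (hr1 : r ≤ 1) (hY : |Y| ≤ 1) :
    ∃ X : ℝ, 0 ≤ X ∧ X ≤ 1 / 2 ∧ 2 * X * (1 - |r * Y|) + |r * Y| = r := by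
  rw [abs_mul, abs_of_nonneg hr0]
  have hY0 : 0 ≤ |Y| := abs_nonneg Y
  have h1 : r * |Y| ≤ r * 1 := mul_le_mul_of_nonneg_left hY hr0
  by_cases h : r * |Y| = 1
  · refine ⟨0, le_rfl, by norm_num, ?_⟩
    linarith
  · have h2 : 0 < 1 - r * |Y| := by
      rcases lt_or_ge (r * |Y|) 1 with h3 | h3
      · linarith
      · exact absurd (le_antisymm (by linarith) h3) h
    refine ⟨r * (1 - |Y|) / (2 * (1 - r * |Y|)), ?_, ?_, ?_⟩
    · apply div_nonneg (mul_nonneg hr0 (by linarith)) (by linarith)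
    · rw [div_le_iff₀ (by linarith)]
      linarith
    · have h3 : 2 * (r * (1 - |Y|) / (2 * (1 - r * |Y|))) * (1 - r * |Y|) = r * (1 - |Y|) := by
        field_simp
      rw [h3]
      ring

theorem rad_nonneg {x y : ℝ} (hy : |y| ≤ 1) : 0 ≤ rad x y := by
  unfold rad
  have h1 : 0 ≤ 1 - |y| := by linarith
  have h2 := abs_nonneg x
  have h3 := abs_nonneg y
  positivity

theorem rad_le_one {x y : ℝ} (hx : |x| ≤ 1 / 2) (hy : |y| ≤ 1) : rad x y ≤ 1 := by
  unfold rad
  have h1 : 0 ≤ 1 - |y| := by linarith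
  have h2 : 2 * |x| * (1 - |y|) ≤ 1 * (1 - |y|) := mul_le_mul_of_nonneg_right (by linarith) h1
  linarith

theorem abs_le_rad {x y : ℝ} (hy : |y| ≤ 1) : |y| ≤ rad x y := by
  unfold rad
  have h1 : 0 ≤ 1 - |y| := by linarith
  have h2 : 0 ≤ 2 * |x| * (1 - |y|) := mul_nonneg (mul_nonneg (by norm_num) (abs_nonneg x)) h1
  linarith

/-- points of the relation over `(r, u) ≠ (1, 0)` are not on a slit. -/
theorem rel_mem (φ : Flag) {x y u : ℝ} (hu : 0 ≤ u) (hu1 : u ≤ 1) (hy : |y| ≤ 1) (hx : |x| ≤ 1 / 2)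
    (hs : φ.1 = true → 0 ≤ x) (hs' : φ.1 = false → x ≤ 0) (h : y = rad x y * Yc φ u)
    (hsl : slit x (chi (tile φ) y)) : rad x y = 1 ∧ u = 0 := by
  obtain ⟨n, hn, k, hk, hf⟩ := hsl
  have hxa := abs_le.1 hx
  have hna := abs_le.1 hn
  have hn' : n = 0 ∨ n = 1 ∨ n = -1 := by
    have h1 : (n : ℝ) ≤ 1 := by linarith
    have h2 : (-1 : ℝ) ≤ n := by linarith
    have h1' : n ≤ 1 := by exact_mod_cast h1
    have h2' : -1 ≤ n := by exact_mod_cast h2
    omega
  rcases hn' with rfl | rfl | rfl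
  · have hy1 : |y| = 1 := by
      by_contra hne
      have hlt : |y| < 1 := lt_of_le_of_ne hy hne
      apply chi_interior (cr_tile φ) hk hlt
      rw [hf, OnePoint.coe_eq_coe]
      push_cast
      ring
    have hr : rad x y = 1 := by
      unfold rad
      rw [hy1]
      ring
    refine ⟨hr, ?_⟩
    rw [hr, one_mul] at h
    exact Yc_end φ hu hu1 (by rw [← h]; exact hy1)
  · push_cast at hna
    have hx2 : x = 1 / 2 := by linarith
    have hr : rad x y = 1 := by
      unfold rad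
      rw [hx2, abs_of_pos (by norm_num : (0 : ℝ) < 1 / 2)]
      ring
    refine ⟨hr, ?_⟩
    rw [hr, one_mul] at h
    obtain ⟨s, a⟩ := φ
    cases s
    · exfalso
      have := hs' rfl
      linarith
    · have h3 := chi_Yc_left a hu hu1
      rw [← h, hf] at h3
      apply M1_level_u hu hu1 (j := tt k) (a := a)
      rw [← h3, lev_tt k hk, OnePoint.coe_eq_coe]
      push_cast
      ring
  · push_cast at hna
    have hx2 : x = -(1 / 2) := by linarith
    have hr : rad x y = 1 := by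
      unfold rad
      rw [hx2, abs_neg, abs_of_pos (by norm_num : (0 : ℝ) < 1 / 2)]
      ring
    refine ⟨hr, ?_⟩
    rw [hr, one_mul] at h
    obtain ⟨s, a⟩ := φ
    cases s
    · have h3 := chi_Yc_right a hu hu1
      rw [← h, hf, TT_coe] at h3
      apply M1_level_u hu hu1 (j := k) (a := a)
      rw [← h3, OnePoint.coe_eq_coe]
      push_cast
      ring
    · exfalso
      have := hs rfl
      linarith

theorem rel_exists (w : W) : ∃ p : V, Rel w p := by
  obtain ⟨⟨φ, μ⟩, hμ0, hsum, hne⟩ := w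
  dsimp only at hμ0 hsum hne
  have h0 := hμ0 0
  have h1 := hμ0 1
  have h2 := hμ0 2
  have h3 := hμ0 3
  obtain ⟨r, hr⟩ : ∃ r : ℝ, r = 1 - μ 1 := ⟨_, rfl⟩
  have hr0 : 0 ≤ r := by linarith
  have hr1 : r ≤ 1 := by linarith
  obtain ⟨u, hu⟩ : ∃ u : ℝ, u = μ 2 / r := ⟨_, rfl⟩
  have hu0 : 0 ≤ u := by
    rw [hu]
    exact div_nonneg h2 hr0
  have hu1 : u ≤ 1 := by
    rw [hu]
    exact div_le_one_of_le₀ (by linarith) hr0
  have hru : r * u = μ 2 := by
    by_cases hz : r = 0
    · rw [hz, zero_mul]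
      linarith
    · rw [hu]
      field_simp
  have hru' : r * (1 - u) = μ 3 := by
    have e : r * (1 - u) = r - r * u := by ring
    rw [e, hru]
    linarith
  have hY := Yc_mem φ hu0 hu1
  obtain ⟨X, hX0, hX1, hX⟩ := M1_X hr0 hr1 hY
  obtain ⟨y, hy⟩ : ∃ y : ℝ, y = r * Yc φ u := ⟨_, rfl⟩
  rw [← hy] at hX
  have hy1 : |y| ≤ 1 := by
    rw [hy, abs_mul, abs_of_nonneg hr0]
    have := mul_le_mul hr1 hY (abs_nonneg _) zero_le_one
    linarith
  obtain ⟨x, hx, hxs, hxs'⟩ : ∃ x : ℝ, |x| = X ∧ (φ.1 = true → 0 ≤ x) ∧ (φ.1 = false → x ≤ 0) := by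
    by_cases hs : φ.1 = true
    · refine ⟨X, abs_of_nonneg hX0, fun _ => hX0, fun hs' => ?_⟩
      rw [hs] at hs'
      exact absurd hs' (by decide)
    · refine ⟨-X, ?_, fun hs' => absurd hs' hs, fun _ => by linarith⟩
      rw [abs_neg]
      exact abs_of_nonneg hX0
  have hrad : rad x y = r := by
    unfold rad
    rw [hx]
    exact hX
  have hx1 : |x| ≤ 1 / 2 := by
    rw [hx]
    exact hX1
  refine ⟨⟨(x, chi (tile φ) y, μ 0), h0, fun hh hsl => ?_⟩, y, u, ?_⟩
  · obtain ⟨h4, h5⟩ := rel_mem φ hu0 hu1 hy1 hx1 hxs hxs' (by rw [hrad]; exact hy) hsl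
    apply hne
    refine ⟨hh, ?_⟩
    rw [← hru', ← hrad, h4, h5]
    norm_num
  · refine ⟨hu0, hu1, hy1, hx1, hxs, hxs', rfl, rfl, ?_, ?_, ?_, ?_⟩
    · show μ 1 = 1 - rad x y
      rw [hrad, hr]
      ring
    · show μ 2 = rad x y * u
      rw [hrad, hru]
    · show μ 3 = rad x y * (1 - u)
      rw [hrad, hru']
    · show y = rad x y * Yc φ u
      rw [hrad]
      exact hy

theorem rel_exists' (p : V) (hp : |p.1.1| ≤ 1 / 2) : ∃ w : W, Rel w p := by
  obtain ⟨⟨x, f, h⟩, hh, hsl⟩ := p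
  dsimp only at hp hh hsl
  obtain ⟨k, hk, y, hy, hf⟩ := chi_surj f
  obtain ⟨r, hr⟩ : ∃ r : ℝ, r = rad x y := ⟨_, rfl⟩
  have hr0 : 0 ≤ r := hr ▸ rad_nonneg hy
  have hr1 : r ≤ 1 := hr ▸ rad_le_one hp hy
  have hyr : |y| ≤ r := hr ▸ abs_le_rad hy
  have hY : |y / r| ≤ 1 := by
    rw [abs_div, abs_of_nonneg hr0]
    exact div_le_one_of_le₀ hyr hr0
  obtain ⟨φ, hs, ht, u, hu0, hu1, hu⟩ := Yc_cover (decide (0 ≤ x)) k hk hY
  have hyY : y = r * Yc φ u := by
    rw [hu]
    by_cases hz : r = 0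
    · rw [hz, zero_mul]
      rw [hz] at hyr
      exact abs_eq_zero.1 (le_antisymm hyr (abs_nonneg y))
    · field_simp
  have hxs : φ.1 = true → 0 ≤ x := fun h1 => by
    rw [hs] at h1
    exact of_decide_eq_true h1
  have hxs' : φ.1 = false → x ≤ 0 := fun h1 => by
    rw [hs] at h1
    exact (not_le.1 (of_decide_eq_false h1)).le
  have hru0 : 0 ≤ r * u := mul_nonneg hr0 hu0
  have hru1 : 0 ≤ r * (1 - u) := mul_nonneg hr0 (by linarith)
  have hcomb1 : ∀ k : Fin 54, cr k = true → cr (nx k) = true := by decide +kernel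
  have hcomb2 : ∀ k : Fin 54, cr k = false → ∃ j : Fin 54, cr j = true ∧ tt j = k := by
    decide +kernel
  have hkey : h = 0 → r * (1 - u) = 1 → False := by
    intro h0 h1
    apply hsl h0
    have hr1' : r = 1 := by
      have : r * (1 - u) ≤ r * 1 := mul_le_mul_of_nonneg_left (by linarith) hr0
      linarith
    have hu0' : u = 0 := by
      rw [hr1'] at h1
      linarith
    rw [hr1', one_mul, hu0'] at hyY
    by_cases hy1 : |y| = 1
    · have hxx : |x - ((0 : ℤ) : ℝ)| ≤ 1 / 2 := by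
        rw [Int.cast_zero, sub_zero]
        exact hp
      rcases eq_or_eq_neg_of_abs_eq hy1 with h2 | h2
      · refine ⟨0, hxx, nx k, hcomb1 k hk, ?_⟩
        rw [← hf, h2, chi_one k hk, OnePoint.coe_eq_coe]
        push_cast
        ring
      · refine ⟨0, hxx, k, hk, ?_⟩
        rw [← hf, h2, chi_neg_one k hk, OnePoint.coe_eq_coe]
        push_cast
        ring
    · have hlt : |y| < 1 := lt_of_le_of_ne hy hy1
      have hx2 : |x| = 1 / 2 := by
        have h2 : (2 * |x| - 1) * (1 - |y|) = 0 := by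
          have : rad x y = 1 := by rw [← hr, hr1']
          unfold rad at this
          linarith
        rcases mul_eq_zero.1 h2 with h3 | h3
        · linarith
        · exfalso
          linarith
      obtain ⟨s, a⟩ := φ
      dsimp only at hs hxs hxs'
      cases s
      · have hx0 := hxs' rfl
        have hxe : x = -(1 / 2) := by
          rw [abs_of_nonpos hx0] at hx2
          linarith
        have hfa : f = ((lev (nodeC a) - 1 : ℝ) : OnePoint ℝ) := by
          rw [← chi_node_right a, ← hyY, ht]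
          exact hf.symm
        have hnoj : ¬ ∃ j : Fin 54, cr j = true ∧ tt j = nodeC a := by
          rintro ⟨j, hj, hjt⟩
          apply chi_interior hk hj hlt
          rw [hf, hfa, ← hjt, lev_tt j hj, OnePoint.coe_eq_coe]
          ring
        have hcm : cr (nodeC a) = true := by
          by_contra hc
          exact hnoj (hcomb2 _ (by simpa using hc))
        refine ⟨-1, ?_, nodeC a, hcm, ?_⟩
        · rw [hxe]
          push_cast
          rw [abs_of_pos (by norm_num)]
          norm_num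
        · rw [hfa, OnePoint.coe_eq_coe]
          push_cast
          ring
      · have hx0 := hxs rfl
        have hxe : x = 1 / 2 := by
          rw [abs_of_nonneg hx0] at hx2
          exact hx2
        have hfa : f = ((lev (nodeC a) : ℝ) : OnePoint ℝ) := by
          rw [← chi_node_left a, ← hyY, ht]
          exact hf.symm
        have hcm : cr (nodeC a) = false := by
          by_contra hc
          apply chi_interior hk (j := nodeC a) (by simpa using hc) hlt
          rw [hf, hfa]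
        obtain ⟨j, hj, hjt⟩ := hcomb2 _ hcm
        refine ⟨1, ?_, j, hj, ?_⟩
        · rw [hxe]
          push_cast
          rw [abs_of_neg (by norm_num)]
          norm_num
        · rw [hfa, ← hjt, lev_tt j hj, OnePoint.coe_eq_coe]
          push_cast
          ring
  refine ⟨⟨(φ, ![h, 1 - r, r * u, r * (1 - u)]), ?_, ?_, ?_⟩, y, u, ?_⟩
  · intro i
    fin_cases i
    · exact hh
    · show 0 ≤ 1 - r
      linarith
    · exact hru0
    · exact hru1
  · show 1 - r + r * u + r * (1 - u) = 1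
    ring
  · rintro ⟨h0, h1⟩
    exact hkey h0 h1
  · refine ⟨hu0, hu1, hy, hp, hxs, hxs', ?_, rfl, ?_, ?_, ?_, ?_⟩
    · show f = chi (tile φ) y
      rw [ht]
      exact hf.symm
    · show 1 - r = 1 - rad x y
      rw [hr]
    · show r * u = rad x y * u
      rw [hr]
    · show r * (1 - u) = rad x y * (1 - u)
      rw [hr]
    · show y = rad x y * Yc φ u
      rw [← hr]
      exact hyY

theorem Lf_exists (p : V) : ∃ w : W, Lf w p := by
  obtain ⟨⟨x, f, h⟩, hh, hsl⟩ := p
  have hx : |x + ((-round x : ℤ) : ℝ)| ≤ 1 / 2 := by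
    push_cast
    rw [← sub_eq_add_neg]
    exact abs_sub_round x
  obtain ⟨w, hw⟩ := rel_exists' ⟨(x + ((-round x : ℤ) : ℝ), TTn (-round x) f, h), hh,
    fun h0 h1 => hsl h0 (M1_slit h1)⟩ hx
  exact ⟨w, -round x, ⟨(x + ((-round x : ℤ) : ℝ), TTn (-round x) f, h), hh,
    fun h0 h1 => hsl h0 (M1_slit h1)⟩, rfl, rfl, rfl, hw⟩

end Pool.AML
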