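import Pool.Agent.AML.F.F7

/-! [AML-M2] Combinatorics of the stars, and equivalence of flag points in a star.

`star_M_comb`, `star_c_comb`: finite checks (`decide +kernel` over the 216 flags, `n < 12`); `g^[n]` with
`g φ = fl (fl φ 3) 2` resp. `fl (fl φ 1) 2`.
`eqv_star_M`: if `w.2 = (h, 1, 0, 0)`, then every step of type `2` or `3` is a `WStep` (the coordinates 2 and 3 vanish), so `w`
is equivalent to the point with the same coordinates on the canonical flag of its tile; two such points with the same tile are equivalent.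
`eqv_star_c`: the same with coordinates `(h, 0, 0, 1)` (`h > 0` because `w ∈ W`), steps `1`, `2`, and the run `ccl (nodeC a)`. -/

set_option linter.style.longLine false

open Topology Set Relation

namespace Pool.AML

/-- the point with the same coordinates on the flag `ψ`. -/
def M2_mv (w : W) (ψ : Flag) : W := ⟨(ψ, w.1.2), w.2⟩

theorem M2_step (w : W) (ψ : Flag) (X : Fin 4) (h : w.1.2 X = 0) :
    EqvGen WStep (M2_mv w ψ) (M2_mv w (fl ψ X)) :=
  EqvGen.rel _ _ ⟨X, h, rfl, rfl⟩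

theorem M2_iter (w : W) {X Y : Fin 4} (hX : w.1.2 X = 0) (hY : w.1.2 Y = 0) (φ : Flag) (n : ℕ) :
    EqvGen WStep (M2_mv w φ) (M2_mv w ((fun ψ => fl (fl ψ X) Y)^[n] φ)) := by
  induction n with
  | zero => exact EqvGen.refl _
  | succ n ih =>
    rw [Function.iterate_succ_apply']
    exact ih.trans _ _ _ ((M2_step w _ X hX).trans _ _ _ (M2_step w _ Y hY))

theorem M2_canon (w : W) {X Y : Fin 4} (hX : w.1.2 X = 0) (hY : w.1.2 Y = 0) (φ χ : Flag)
    (h : ∃ n < 12, (fun ψ => fl (fl ψ X) Y)^[n] φ = χ ∨ fl ((fun ψ => fl (fl ψ X) Y)^[n] φ) X = χ) :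
    EqvGen WStep (M2_mv w φ) (M2_mv w χ) := by
  obtain ⟨n, _, h1 | h1⟩ := h
  · rw [← h1]
    exact M2_iter w hX hY φ n
  · rw [← h1]
    exact (M2_iter w hX hY φ n).trans _ _ _ (M2_step w _ X hX)

theorem M2_eq {w w' : W} (h : w'.1.2 = w.1.2) : M2_mv w w'.1.1 = w' := by
  apply Subtype.ext
  apply Prod.ext
  · rfl
  · exact h.symm

theorem star_M_comb (φ : Flag) : ∃ n < 12, (fun ψ => fl (fl ψ 3) 2)^[n] φ = (true, arcAt (tile φ) true) ∨
    fl ((fun ψ => fl (fl ψ 3) 2)^[n] φ) 3 = (true, arcAt (tile φ) true) := by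
  revert φ
  decide +kernel

theorem star_c_comb (φ : Flag) : ∃ n < 12, (fun ψ => fl (fl ψ 1) 2)^[n] φ = (true, arcAt (ccl (nodeC φ.2)) true) ∨
    fl ((fun ψ => fl (fl ψ 1) 2)^[n] φ) 1 = (true, arcAt (ccl (nodeC φ.2)) true) := by
  revert φ
  decide +kernel

theorem eqv_star_M {w w' : W} (h1 : w.1.2 1 = 1) (h : w'.1.2 = w.1.2) (ht : tile w.1.1 = tile w'.1.1) :
    EqvGen WStep w w' := by
  have hn := w.2.1
  have hs := w.2.2.1
  have h2 : w.1.2 2 = 0 := by linarith [hn 2, hn 3]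
  have h3 : w.1.2 3 = 0 := by linarith [hn 2, hn 3]
  have e1 := M2_canon w h3 h2 w.1.1 _ (star_M_comb w.1.1)
  have e2 := M2_canon w h3 h2 w'.1.1 _ (star_M_comb w'.1.1)
  rw [← ht, M2_eq h] at e2
  rw [M2_eq rfl] at e1
  exact e1.trans _ _ _ (e2.symm _ _)

theorem eqv_star_c {w w' : W} (h3 : w.1.2 3 = 1) (h : w'.1.2 = w.1.2)
    (hc : ccl (nodeC w.1.1.2) = ccl (nodeC w'.1.1.2)) : EqvGen WStep w w' := by
  have hn := w.2.1
  have hs := w.2.2.1
  have h1 : w.1.2 1 = 0 := by linarith [hn 1, hn 2]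
  have h2 : w.1.2 2 = 0 := by linarith [hn 1, hn 2]
  have e1 := M2_canon w h1 h2 w.1.1 _ (star_c_comb w.1.1)
  have e2 := M2_canon w h1 h2 w'.1.1 _ (star_c_comb w'.1.1)
  rw [← hc, M2_eq h] at e2
  rw [M2_eq rfl] at e1
  exact e1.trans _ _ _ (e2.symm _ _)

end Pool.AML
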