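import Pool.Agent.AML.M.M1
import Pool.Agent.AML.M.M2

/-! [AML-M3] Two flag points related to the same point of `V`, or to a point and its translate, are equivalent.

Notation: `Rl w p y u`, `Rl w' p y' u'`, `p = (x, f, h)`, `f = chi k y = chi k' y'`, `k = tile w`, `k' = tile w'`, `r = rad x y`, `r' = rad x y'`.
`rel_same`: by `chi_eq`: (A) `|y| = |y'| = 1`: then `r = r' = 1`, `|Yc φ u| = 1` so `u = u' = 0` (`Yc_end`), both points have
coordinates `(h, 0, 0, 1)`; by `chi_node_left/right` the node levels satisfy `f = lev (nodeC a)` or `lev (nodeC a) - 1` (note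
`y = Yc φ 0`), so they differ by an integer, `lev_congr` and `eqv_star_c` finish.
(B) `k = k'`, `y = y'`, `|y| < 1`: `r = r'`. If `r = 0`: `eqv_star_M`. If `r > 0`: `Yc φ u = y / r = Yc φ' u'`. If the sides agree: `Yc_eq`
gives `w = w'`, or `u = u' = 1` and `φ' = fl φ 3` (a `WStep` with `X = 3`, `μ 3 = r (1 - u) = 0`), or `u = u' = 0`, `φ' = fl φ 2`
(`X = 2`). If the sides differ then `x = 0`, `r = |y|`, `|Yc φ u| = 1`, `u = u' = 0`, and `φ' = fl φ 2`
(both are at the same end of the tile: `Yc_wall`, `fl φ 2` is on the other side with `Yc = ` the same value and same tile, so `Yc_eq` for `fl φ 2` and `φ'`).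
`rel_translate`: `q = T p`, both in strips, so `x_p = -1/2`, `x_q = 1/2`; `Rl w p y u`, `Rl w' q y' u'`; `r = r' = 1`, `y = Yc φ u`, `y' = Yc φ' u'`,
`φ = (false, a)` (because `x_p < 0`), `φ' = (true, a')`. `Parc a u = TT (chi ..) = TT f_p = f_q = Parc a' u'`. `Parc_eq`: `a = a'`, `u = u'`: the
`WStep` `X = 1` (`μ 1 = 1 - r = 0`). `u = u' = 1`, `a' = partner`: first `X = 1`, then `X = 3`. `u = u' = 0`: both points have coordinates
`(h, 0, 0, 1)` and the same node level: `eqv_star_c` (`nodeC a = nodeC a'`, by `Parc_zero` and `lev_inj`). -/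

set_option linter.style.longLine false

open Topology Set Relation

namespace Pool.AML

theorem M3_coord {w w' : W} (h0 : w'.1.2 0 = w.1.2 0) (h1 : w'.1.2 1 = w.1.2 1)
    (h2 : w'.1.2 2 = w.1.2 2) (h3 : w'.1.2 3 = w.1.2 3) : w'.1.2 = w.1.2 := by
  funext i
  fin_cases i
  · exact h0
  · exact h1
  · exact h2
  · exact h3

theorem M3_step {w w' : W} (X : Fin 4) (h0 : w.1.2 X = 0) (hf : w'.1.1 = fl w.1.1 X)
    (hc : w'.1.2 = w.1.2) : EqvGen WStep w w' :=
  EqvGen.rel _ _ ⟨X, h0, hf, hc⟩

theorem M3_bool (a b c : Bool) (h1 : a ≠ b) (h2 : b ≠ c) : a = c := by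
  cases a <;> cases b <;> cases c <;> simp_all

theorem M3_rad_one {x y : ℝ} (hy : |y| = 1) : rad x y = 1 := by
  unfold rad
  rw [hy]
  ring

/-- the node level of a flag at a point with `u = 0`, `r = 1`. -/
theorem M3_node (φ : Flag) {f : OnePoint ℝ} (h : f = chi (tile φ) (Yc φ 0)) :
    ∃ m : ℤ, f = ((lev (nodeC φ.2) + m : ℝ) : OnePoint ℝ) := by
  obtain ⟨s, a⟩ := φ
  cases s with
  | true =>
    refine ⟨0, ?_⟩
    rw [h, chi_node_left]
    norm_num
  | false =>
    refine ⟨-1, ?_⟩
    rw [h, chi_node_right]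
    congr 1
    push_cast
    ring

theorem M3_ccl {j k : Fin 54} {m n : ℤ} (h : ((lev j + m : ℝ) : OnePoint ℝ) = ((lev k + n : ℝ) : OnePoint ℝ)) :
    ccl j = ccl k := by
  have h1 : lev j + m = lev k + n := OnePoint.coe_injective h
  refine lev_congr (n := n - m) ?_
  push_cast
  linarith

theorem rel_same {w w' : W} {p : V} (h : Rel w p) (h' : Rel w' p) : EqvGen WStep w w' := by
  obtain ⟨y, u, hu, hu1, hy, hx, hs, hs', hf, hh, c1, c2, c3, hY⟩ := h
  obtain ⟨y', u', hv, hv1, hy', _, ht, ht', hf', hh', d1, d2, d3, hY'⟩ := h'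
  have hchi := hf.symm.trans hf'
  by_cases hB : |y| = 1 ∧ |y'| = 1
  · -- ends of the tiles
    have hr : rad p.1.1 y = 1 := M3_rad_one hB.1
    have hr' : rad p.1.1 y' = 1 := M3_rad_one hB.2
    rw [hr] at c1 c2 c3 hY
    rw [hr'] at d1 d2 d3 hY'
    rw [one_mul] at hY hY'
    have hu0 : u = 0 := Yc_end _ hu hu1 (by rw [← hY]; exact hB.1)
    have hv0 : u' = 0 := Yc_end _ hv hv1 (by rw [← hY']; exact hB.2)
    subst hu0
    subst hv0
    obtain ⟨m, hm⟩ := M3_node w.1.1 (f := p.1.2.1) (by rw [hf, ← hY])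
    obtain ⟨m', hm'⟩ := M3_node w'.1.1 (f := p.1.2.1) (by rw [hf', ← hY'])
    refine eqv_star_c (by rw [c3]; ring) (M3_coord ?_ ?_ ?_ ?_) (M3_ccl (hm.symm.trans hm'))
    · rw [← hh, ← hh']
    · rw [c1, d1]
    · rw [c2, d2]
    · rw [c3, d3]
  · have hky : tile w.1.1 = tile w'.1.1 ∧ y = y' := by
      rcases chi_eq (cr_tile _) (cr_tile _) hy hy' hchi with h1 | h1
      · exact h1
      · exact absurd h1 hB
    obtain ⟨hk, hyy⟩ := hky
    subst hyy
    have hy1 : |y| < 1 := lt_of_le_of_ne hy (fun h1 => hB ⟨h1, h1⟩)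
    have hr0 : 0 ≤ rad p.1.1 y := rad_nonneg hy
    rcases hr0.eq_or_lt with hr | hr
    · -- the axis
      rw [← hr] at c1 c2 c3 d1 d2 d3
      refine eqv_star_M (by rw [c1]; ring) (M3_coord ?_ ?_ ?_ ?_) hk
      · rw [← hh, ← hh']
      · rw [c1, d1]
      · rw [c2, d2]; ring
      · rw [c3, d3]; ring
    · have hYY : Yc w.1.1 u = Yc w'.1.1 u' := mul_left_cancel₀ hr.ne' (hY.symm.trans hY')
      by_cases hside : w.1.1.1 = w'.1.1.1
      · rcases Yc_eq hside hk hu hu1 hv hv1 hYY with ⟨h1, h2⟩ | ⟨h1, h2, h3⟩ | ⟨h1, h2, h3⟩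
        · subst h2
          have : w = w' := by
            apply Subtype.ext
            apply Prod.ext
            · exact h1
            · exact (M3_coord (by rw [← hh, ← hh']) (by rw [c1, d1]) (by rw [c2, d2])
                (by rw [c3, d3])).symm
          rw [this]
          exact EqvGen.refl _
        · subst h1
          subst h2
          exact M3_step 3 (by rw [c3]; ring) h3 (M3_coord (by rw [← hh, ← hh']) (by rw [c1, d1])
            (by rw [c2, d2]) (by rw [c3, d3]))
        · subst h1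
          subst h2
          exact M3_step 2 (by rw [c2]; ring) h3 (M3_coord (by rw [← hh, ← hh']) (by rw [c1, d1])
            (by rw [c2, d2]) (by rw [c3, d3]))
      · -- different sides
        have hx0 : p.1.1 = 0 := by
          cases hb : w.1.1.1 with
          | true =>
            have hb' : w'.1.1.1 = false := by
              cases hc : w'.1.1.1 with
              | true => exact absurd (hb.trans hc.symm) hside
              | false => rfl
            exact le_antisymm (ht' hb') (hs hb)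
          | false =>
            have hb' : w'.1.1.1 = true := by
              cases hc : w'.1.1.1 with
              | true => rfl
              | false => exact absurd (hb.trans hc.symm) hside
            exact le_antisymm (hs' hb) (ht hb')
        have hry : rad p.1.1 y = |y| := by
          unfold rad
          rw [hx0, abs_zero]
          ring
        have hYabs : |Yc w.1.1 u| = 1 := by
          have h1 : |y| = |y| * |Yc w.1.1 u| := by
            conv_lhs => rw [hY, abs_mul, hry, abs_abs]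
          rw [hry] at hr
          have h2 : |y| * 1 = |y| * |Yc w.1.1 u| := by rw [mul_one]; exact h1
          exact (mul_left_cancel₀ hr.ne' h2).symm
        have hu0 : u = 0 := Yc_end _ hu hu1 hYabs
        have hv0 : u' = 0 := Yc_end _ hv hv1 (by rw [← hYY]; exact hYabs)
        subst hu0
        subst hv0
        have hwall : (fl w.1.1 2).1 ≠ w.1.1.1 := by
          intro h1
          have h2 := Yc_dummy w.1.1 h1
          rw [hYabs] at h2
          exact lt_irrefl _ h2
        have hsd : (fl w.1.1 2).1 = w'.1.1.1 :=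
           M3_bool _ _ _ hwall hside
        have hf2 : w'.1.1 = fl w.1.1 2 := by
          rcases Yc_eq (φ := fl w.1.1 2) (ψ := w'.1.1) hsd ((tile_two _).trans hk) le_rfl zero_le_one
            le_rfl zero_le_one ((Yc_two _).trans hYY) with ⟨h1, _⟩ | ⟨h1, _, _⟩ | ⟨_, _, h3⟩
          · exact h1.symm
          · exact absurd h1 (by norm_num)
          · rw [fl_fl] at h3
            exact absurd (by rw [h3]) hside
        exact M3_step 2 (by rw [c2]; ring) hf2 (M3_coord (by rw [← hh, ← hh']) (by rw [c1, d1])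
            (by rw [c2, d2]) (by rw [c3, d3]))

theorem rel_translate {w w' : W} {p q : V} (hx : q.1.1 = p.1.1 + 1) (hf : q.1.2.1 = TT p.1.2.1)
    (hh : q.1.2.2 = p.1.2.2) (h : Rel w p) (h' : Rel w' q) : EqvGen WStep w w' := by
  obtain ⟨y, u, hu, hu1, hy, hxp, hs, hs', hfp, hhp, c1, c2, c3, hY⟩ := h
  obtain ⟨y', u', hv, hv1, hy', hxq, ht, ht', hfq, hhq, d1, d2, d3, hY'⟩ := h'
  have hp1 : p.1.1 = -1 / 2 := by
    have h1 := (abs_le.mp hxp).1
    have h2 := (abs_le.mp hxq).2
    linarith
  have hq1 : q.1.1 = 1 / 2 := by linarith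
  have hr : rad p.1.1 y = 1 := by
    unfold rad
    rw [hp1, show |(-1 / 2 : ℝ)| = 1 / 2 by rw [abs_of_nonpos (by norm_num)]; norm_num]
    ring
  have hr' : rad q.1.1 y' = 1 := by
    unfold rad
    rw [hq1, show |(1 / 2 : ℝ)| = 1 / 2 by rw [abs_of_nonneg (by norm_num)]]
    ring
  rw [hr] at c1 c2 c3 hY
  rw [hr'] at d1 d2 d3 hY'
  rw [one_mul] at hY hY' c2 c3 d2 d3
  have hφ : w.1.1.1 = false := by
    cases hb : w.1.1.1 with
    | true =>
      have := hs hb
      rw [hp1] at this
      norm_num at this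
    | false => rfl
  have hφ' : w'.1.1.1 = true := by
    cases hb : w'.1.1.1 with
    | true => rfl
    | false =>
      have := ht' hb
      rw [hq1] at this
      norm_num at this
  have e1 : w.1.1 = (false, w.1.1.2) := Prod.ext hφ rfl
  have e2 : w'.1.1 = (true, w'.1.1.2) := Prod.ext hφ' rfl
  have hP : Parc w.1.1.2 u = Parc w'.1.1.2 u' := by
    rw [← chi_Yc_right w.1.1.2 hu hu1, ← chi_Yc_left w'.1.1.2 hv hv1, ← e1, ← e2, ← hY, ← hY',
      ← hfp, ← hfq, hf]
  have hcoord : u = u' → w'.1.2 = w.1.2 := by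
    intro huu
    subst huu
    exact M3_coord (by rw [← hhp, ← hhq, hh]) (by rw [c1, d1]) (by rw [c2, d2]) (by rw [c3, d3])
  rcases Parc_eq hu hu1 hv hv1 hP with ⟨h1, h2⟩ | ⟨h1, h2, h3⟩ | ⟨h1, h2, h3⟩
  · refine M3_step 1 (by rw [c1]; ring) ?_ (hcoord h2)
    rw [e1, e2, ← h1]
    rfl
  · have hm : w'.1.1 = fl (fl w.1.1 1) 3 := by
      rw [e1, e2, h3]
      rfl
    have s1 := M2_step w w.1.1 1 (by rw [c1]; ring)
    have s2 := M2_step w (fl w.1.1 1) 3 (by rw [c3, h1]; ring)
    rw [M2_eq rfl] at s1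
    rw [← hm, M2_eq (hcoord (h1.trans h2.symm))] at s2
    exact s1.trans _ _ _ s2
  · refine eqv_star_c (by rw [c3, h1]; ring) (hcoord (h1.trans h2.symm)) ?_
    rw [h1, h2, Parc_zero, Parc_zero] at hP
    rw [lev_inj (OnePoint.coe_injective hP)]

/-- consequence for arbitrary translations (two points of the strip differ by `0` or `±1`). -/
theorem Lf_same {w w' : W} {p : V} (h : Lf w p) (h' : Lf w' p) : EqvGen WStep w w' := by
  obtain ⟨n, p', hx, hf, hh, hR⟩ := h
  obtain ⟨n', q', hx', hf', hh', hR'⟩ := h'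
  have hb : |p'.1.1| ≤ 1 / 2 := by
    obtain ⟨_, _, _, _, _, h1, _⟩ := hR
    exact h1
  have hb' : |q'.1.1| ≤ 1 / 2 := by
    obtain ⟨_, _, _, _, _, h1, _⟩ := hR'
    exact h1
  rw [abs_le] at hb hb'
  have hd1 : ((n' - n : ℤ) : ℝ) ≤ 1 := by push_cast; linarith [hb.1, hb'.2]
  have hd2 : (-1 : ℝ) ≤ ((n' - n : ℤ) : ℝ) := by push_cast; linarith [hb.2, hb'.1]
  have hd1' : n' - n ≤ 1 := by exact_mod_cast hd1
  have hd2' : -1 ≤ n' - n := by exact_mod_cast hd2
  have hcase : n' = n ∨ n' = n + 1 ∨ n = n' + 1 := by omega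
  rcases hcase with h1 | h1 | h1
  · subst h1
    have hpq : p' = q' := by
      apply Subtype.ext
      apply Prod.ext
      · rw [hx, hx']
      · apply Prod.ext
        · rw [hf, hf']
        · rw [hh, hh']
    subst hpq
    exact rel_same hR hR'
  · refine rel_translate (p := p') (q := q') ?_ ?_ ?_ hR hR'
    · rw [hx, hx', h1]
      push_cast
      ring
    · rw [hf, hf', h1, ← TTn_one, TTn_add, add_comm]
    · rw [hh, hh']
  · refine EqvGen.symm _ _ (rel_translate (p := q') (q := p') ?_ ?_ ?_ hR' hR)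
    · rw [hx, hx', h1]
      push_cast
      ring
    · rw [hf, hf', h1, ← TTn_one, TTn_add, add_comm]
    · rw [hh, hh']

end Pool.AML
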