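import Pool.Agent.AML.M.M3
import Pool.Agent.AML.G.G6

/-! [AML-M4] The relation is compatible with the two equivalence relations.

`rel_fibre` : `Rel w p`, `Rel w p'` → `p ~' p'`. `r = 1 - μ 1` is the same; `r = 0`: `x = 0`, `y = 0`, so `p = p'`. `r > 0`: `u = μ 2 / r`,
`y = r Yc φ u` the same, so `f`, `h` the same; if `|y| < 1`, `|x|` is determined by `r` and `x` by the side: `p = p'`; if `|y| = 1`, `f` is the crossing level
`lev (tile φ)` or `lev (nx (tile φ))` and `VStep'.C` applies (`|x|, |x'| ≤ 1/2`).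
`wstep_rel`: `WStep w w'` (type `X`), `Rel w p`, `Rel w' p'` → `p ~' p'`. By `rel_fibre` it is enough to exhibit one pair.
`X = 0`: `μ 0 = 0`; `p = (x, f, 0)`, then `(-x, SS f, 0)` is related to `w'` (`SS_chi`, `tile_zero`, `Yc_zero`, sides exchanged) and `VStep.S`.
`X = 2`: `μ 2 = r u = 0`: `r = 0`: `x = y = 0` and the same `p` is related to `w'` (`tile_two`); `r > 0`, `u = 0`: same side: `Yc_two`, the same `p`; other
side: `|Yc φ 0| = 1` (`Yc_wall`); if `r < 1` then `|y| = r < 1` and `rad x y = |y|` forces `x = 0`, the same `p` works; if `r = 1`, `|y| = 1`, `h > 0`,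
and `(0, f, h)` is related to both. `X = 3`: `r = 0` or `u = 1`, the same `p` (`Yc_three`, `tile_three`).
`X = 1`: `r = 1`, `w' = (other side, a, μ)`. Say `φ = (false, a)`. `Parc a u = TT (chi (tile φ) (Yc φ u)) = chi (tile φ') (Yc φ' u)`. If
`|Yc φ u| < 1` then `x = -1/2`, and if moreover `|Yc φ' u| < 1` then `x' = 1/2` and it is `VStep.T`. If one of them has absolute value 1 then
`u = 0`, `μ = (h, 0, 0, 1)`, `h > 0`, all `x` are allowed there: choose `x = -1/2` and `x' = 1/2` (all points with `h > 0` are in `V`), again `VStep.T`.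
`vstep_rel`: `VStep' p p'`, `Lf w p`, `Lf w' p'` → `w ~ w'`. By `Lf_same` it is enough to exhibit one pair `w, w'`. `T`: the same `w`.
`S`: `|x| ≤ 1/2`: take `w` with `Rel w p` (`rel_exists'`) and `w' = (fl φ 0, μ)`, `μ 0 = h = 0`. `C`: both `p`, `p'` at the same crossing level and height
`h > 0` with `|x|, |x'| ≤ 1/2`; `p₀ = (0, f, h)`; take `w` with `Rel w p`: `|y| = 1` (`chi_interior`), so `Rel w p₀`; the same for `p'`; `rel_same`. -/

set_option linter.style.longLine false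

open Topology Set Relation

namespace Pool.AML

/-- a point of `V` related to `w` with prescribed `x`, `y`, `u`. -/
theorem M4_mk (w : W) {x y u : ℝ} (hu : 0 ≤ u) (hu1 : u ≤ 1) (hy : |y| ≤ 1) (hx : |x| ≤ 1 / 2)
    (hs : w.1.1.1 = true → 0 ≤ x) (hs' : w.1.1.1 = false → x ≤ 0) (c1 : w.1.2 1 = 1 - rad x y)
    (c2 : w.1.2 2 = rad x y * u) (c3 : w.1.2 3 = rad x y * (1 - u))
    (hY : y = rad x y * Yc w.1.1 u) :
    ∃ p : V, p.1.1 = x ∧ p.1.2.1 = chi (tile w.1.1) y ∧ p.1.2.2 = w.1.2 0 ∧ Rl w p y u := by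
  refine ⟨⟨(x, chi (tile w.1.1) y, w.1.2 0), w.2.1 0, fun h0 hsl => ?_⟩, rfl, rfl, rfl,
    hu, hu1, hy, hx, hs, hs', rfl, rfl, c1, c2, c3, hY⟩
  obtain ⟨h1, h2⟩ := rel_mem w.1.1 hu hu1 hy hx hs hs' hY hsl
  refine w.2.2.2 ⟨h0, ?_⟩
  rw [c3, h1, h2]
  ring

theorem M4_cr_nx (k : Fin 54) : cr k = true → cr (nx k) = true := by
  revert k
  decide +kernel

theorem M4_rad_neg (x y : ℝ) : rad (-x) y = rad x y := by
  unfold rad
  rw [abs_neg]

theorem M4_side_zero (φ : Flag) : (fl φ 0).1 = !φ.1 := by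
  obtain ⟨s, a⟩ := φ
  cases s <;> rfl

theorem M4_rad_zero (y : ℝ) : rad 0 y = |y| := by
  unfold rad
  rw [abs_zero]
  ring

theorem M4_zero {x y : ℝ} (hy : |y| ≤ 1) (h : rad x y = 0) : x = 0 ∧ y = 0 := by
  have h1 : |y| ≤ 0 := h ▸ abs_le_rad hy
  have h2 : |y| = 0 := le_antisymm h1 (abs_nonneg _)
  have h3 : y = 0 := abs_eq_zero.mp h2
  refine ⟨?_, h3⟩
  unfold rad at h
  rw [h2] at h
  have h4 : |x| = 0 := by linarith
  exact abs_eq_zero.mp h4

/-- at the ends of a tile there is a crossing level. -/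
theorem M4_end {k : Fin 54} (hk : cr k = true) {y : ℝ} (hy : |y| = 1) :
    ∃ j : Fin 54, cr j = true ∧ chi k y = ((lev j : ℝ) : OnePoint ℝ) := by
  rcases (abs_eq zero_le_one).mp hy with h1 | h1
  · exact ⟨nx k, M4_cr_nx k hk, by rw [h1]; exact chi_one k hk⟩
  · exact ⟨k, hk, by rw [h1]; exact chi_neg_one k hk⟩

theorem M4_Vext {p q : V} (h1 : p.1.1 = q.1.1) (h2 : p.1.2.1 = q.1.2.1) (h3 : p.1.2.2 = q.1.2.2) :
    p = q :=
  Subtype.ext (Prod.ext h1 (Prod.ext h2 h3))

theorem rel_fibre {w : W} {p p' : V} (h : Rel w p) (h' : Rel w p') : EqvGen VStep' p p' := by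
  obtain ⟨y, u, hu, hu1, hy, hx, hs, hs', hf, hh, c1, c2, c3, hY⟩ := h
  obtain ⟨y', u', hv, hv1, hy', hx', ht, ht', hf', hh', d1, d2, d3, hY'⟩ := h'
  have hrr : rad p.1.1 y = rad p'.1.1 y' := by linarith
  have hr0 : 0 ≤ rad p.1.1 y := rad_nonneg hy
  rcases hr0.eq_or_lt with hr | hr
  · obtain ⟨hx0, hy0⟩ := M4_zero hy hr.symm
    obtain ⟨hx0', hy0'⟩ := M4_zero hy' (hrr ▸ hr.symm)
    have : p = p' := M4_Vext (by rw [hx0, hx0']) (by rw [hf, hf', hy0, hy0']) (by rw [hh, hh'])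
    rw [this]
    exact EqvGen.refl _
  · have huu : u = u' := by
      apply mul_left_cancel₀ hr.ne'
      rw [← c2, d2, hrr]
    have hyy : y = y' := by rw [hY, hY', hrr, huu]
    subst huu
    subst hyy
    rcases hy.lt_or_eq with hy1 | hy1
    · have hxx : |p.1.1| = |p'.1.1| := by
        unfold rad at hrr
        have h1 : (2 * (1 - |y|)) * |p.1.1| = (2 * (1 - |y|)) * |p'.1.1| := by linarith
        exact mul_left_cancel₀ (by
          have : 0 < 2 * (1 - |y|) := by linarith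
          exact this.ne') h1
      have hx1 : p.1.1 = p'.1.1 := by
        cases hb : w.1.1.1 with
        | true => rwa [abs_of_nonneg (hs hb), abs_of_nonneg (ht hb)] at hxx
        | false =>
          rw [abs_of_nonpos (hs' hb), abs_of_nonpos (ht' hb)] at hxx
          linarith
      have : p = p' := M4_Vext hx1 (by rw [hf, hf']) (by rw [hh, hh'])
      rw [this]
      exact EqvGen.refl _
    · obtain ⟨j, hj, hjl⟩ := M4_end (cr_tile w.1.1) hy1
      exact EqvGen.rel _ _ (VStep'.C p p' j hj hx hx' (hf.trans hjl) (hf'.trans hjl)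
        (hh'.trans hh.symm))

theorem M4_T {w w' : W} {a : Fin 108} (hφ : w.1.1 = (false, a)) (hφ' : w'.1.1 = (true, a))
    (hc : w'.1.2 = w.1.2) (h1 : w.1.2 1 = 0) {p : V} (h : Rel w p) :
    ∃ q q' : V, Rel w q ∧ Rel w' q' ∧ EqvGen VStep' q q' := by
  obtain ⟨y, u, hu, hu1, hy, hx, hs, hs', hf, hh, c1, c2, c3, hY⟩ := h
  have hr : rad p.1.1 y = 1 := by linarith
  rw [hr, one_mul] at c2 c3
  have hm : ∀ z : ℝ, rad (-1 / 2) z = 1 := by
    intro z
    unfold rad
    rw [show |(-1 / 2 : ℝ)| = 1 / 2 by rw [abs_of_nonpos (by norm_num)]; norm_num]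
    ring
  have hm' : ∀ z : ℝ, rad (1 / 2) z = 1 := by
    intro z
    unfold rad
    rw [show |(1 / 2 : ℝ)| = 1 / 2 by rw [abs_of_nonneg (by norm_num)]]
    ring
  obtain ⟨q, q1, q2, q3, q4⟩ := M4_mk w (x := -1 / 2) (y := Yc w.1.1 u) (u := u) hu hu1
    (Yc_mem _ hu hu1) (by rw [abs_of_nonpos (by norm_num)]; norm_num)
    (by rw [hφ]; intro h0; exact absurd h0 (by simp)) (by intro _; norm_num) (by rw [hm, h1]; ring)
    (by rw [hm, c2]; ring) (by rw [hm, c3]; ring) (by rw [hm]; ring)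
  obtain ⟨q', r1, r2, r3, r4⟩ := M4_mk w' (x := 1 / 2) (y := Yc w'.1.1 u) (u := u) hu hu1
    (Yc_mem _ hu hu1) (by rw [abs_of_nonneg (by norm_num)]) (by intro _; norm_num)
    (by rw [hφ']; intro h0; exact absurd h0 (by simp)) (by rw [hm', hc, h1]; ring)
    (by rw [hm', hc, c2]; ring) (by rw [hm', hc, c3]; ring) (by rw [hm']; ring)
  refine ⟨q, q', ⟨_, _, q4⟩, ⟨_, _, r4⟩, EqvGen.rel _ _ (VStep'.base _ _ (VStep.T q q' ?_ ?_ ?_))⟩
  · rw [q1, r1]
    norm_num
  · rw [q2, r2, hφ, hφ', chi_Yc_left a hu hu1, chi_Yc_right a hu hu1]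
  · rw [q3, r3, hc]

theorem wstep_rel {w w' : W} {p p' : V} (hw : WStep w w') (h : Rel w p) (h' : Rel w' p') :
    EqvGen VStep' p p' := by
  have key : ∃ q q' : V, Rel w q ∧ Rel w' q' ∧ EqvGen VStep' q q' := by
    obtain ⟨X, hX, hfl, hc⟩ := hw
    obtain ⟨y, u, hu, hu1, hy, hx, hs, hs', hf, hh, c1, c2, c3, hY⟩ := h
    have hRl : Rl w p y u := ⟨hu, hu1, hy, hx, hs, hs', hf, hh, c1, c2, c3, hY⟩
    -- the case `r = 0` for `X = 2, 3`
    have hzero : tile w'.1.1 = tile w.1.1 → rad p.1.1 y = 0 → Rel w' p := by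
      intro ht hr
      obtain ⟨hx0, hy0⟩ := M4_zero hy hr
      refine ⟨y, u, hu, hu1, hy, hx, fun _ => hx0.ge, fun _ => hx0.le, ?_, ?_, ?_, ?_, ?_, ?_⟩
      · rw [hf, ht]
      · rw [hh, hc]
      · rw [hc, c1]
      · rw [hc, c2]
      · rw [hc, c3]
      · rw [hr, hy0]
        ring
    have hX4 : X = 0 ∨ X = 1 ∨ X = 2 ∨ X = 3 := by
      fin_cases X <;> simp
    rcases hX4 with rfl | rfl | rfl | rfl
    · -- side pairing
      have hsd : w'.1.1.1 = !w.1.1.1 := by rw [hfl]; exact M4_side_zero _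
      obtain ⟨q, q1, q2, q3, q4⟩ := M4_mk w' (x := -p.1.1) (y := y) (u := u) hu hu1 hy
        (by rw [abs_neg]; exact hx)
        (by
          intro h0
          rw [hsd] at h0
          have : w.1.1.1 = false := by simpa using h0
          linarith [hs' this])
        (by
          intro h0
          rw [hsd] at h0
          have : w.1.1.1 = true := by simpa using h0
          linarith [hs this])
        (by rw [M4_rad_neg, hc, c1]) (by rw [M4_rad_neg, hc, c2]) (by rw [M4_rad_neg, hc, c3])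
        (by rw [M4_rad_neg, hfl, Yc_zero]; exact hY)
      refine ⟨p, q, ⟨_, _, hRl⟩, ⟨_, _, q4⟩, EqvGen.rel _ _ (VStep'.base _ _
        (VStep.S p q hx (by rw [hh, hX]) (by rw [q3, hc, hX]) q1 ?_))⟩
      rw [q2, hfl, tile_zero, hf, SS_chi _ (cr_tile _)]
    · -- translation
      cases hb : w.1.1.1 with
      | false =>
        have e1 : w.1.1 = (false, w.1.1.2) := Prod.ext hb rfl
        have e2 : w'.1.1 = (true, w.1.1.2) := by
          rw [hfl, e1]
          rfl
        exact M4_T e1 e2 hc hX ⟨_, _, hRl⟩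
      | true =>
        have e1 : w.1.1 = (true, w.1.1.2) := Prod.ext hb rfl
        have e2 : w'.1.1 = (false, w.1.1.2) := by
          rw [hfl, e1]
          rfl
        obtain ⟨q, q', h1, h2, h3⟩ := M4_T e2 e1 hc.symm (by rw [hc]; exact hX) h'
        exact ⟨q', q, h2, h1, h3.symm _ _⟩
    · -- `X = 2`
      have ht : tile w'.1.1 = tile w.1.1 := by rw [hfl]; exact tile_two _
      rcases (mul_eq_zero.mp (c2.symm.trans hX)) with hr | hu0
      · exact ⟨p, p, ⟨_, _, hRl⟩, hzero ht hr, EqvGen.refl _⟩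
      · subst hu0
        by_cases hside : (fl w.1.1 2).1 = w.1.1.1
        · refine ⟨p, p, ⟨_, _, hRl⟩, ⟨y, 0, hu, hu1, hy, hx, ?_, ?_, ?_, ?_, ?_, ?_, ?_, ?_⟩,
            EqvGen.refl _⟩
          · intro h0
            rw [hfl, hside] at h0
            exact hs h0
          · intro h0
            rw [hfl, hside] at h0
            exact hs' h0
          · rw [hf, ht]
          · rw [hh, hc]
          · rw [hc, c1]
          · rw [hc, c2]
          · rw [hc, c3]
          · rw [hfl, Yc_two]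
            exact hY
        · have hwall := Yc_wall w.1.1 hside
          have hry : |y| = rad p.1.1 y := by
            conv_lhs => rw [hY, abs_mul, hwall, mul_one, abs_of_nonneg (rad_nonneg hy)]
          have hr0 : rad 0 y = rad p.1.1 y := by rw [M4_rad_zero, hry]
          obtain ⟨q, q1, q2, q3, q4⟩ := M4_mk w (x := 0) (y := y) (u := 0) le_rfl zero_le_one hy
            (by rw [abs_zero]; norm_num) (fun _ => le_rfl) (fun _ => le_rfl) (by rw [hr0, c1])
            (by rw [hr0, c2]) (by rw [hr0, c3]) (by rw [hr0]; exact hY)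
          refine ⟨q, q, ⟨_, _, q4⟩, ⟨y, 0, le_rfl, zero_le_one, hy, by rw [q1, abs_zero]; norm_num,
            fun _ => q1.ge, fun _ => q1.le, ?_, ?_, ?_, ?_, ?_, ?_⟩, EqvGen.refl _⟩
          · rw [q2, ht]
          · rw [q3, hc]
          · rw [q1, hr0, hc, c1]
          · rw [q1, hr0, hc, c2]
          · rw [q1, hr0, hc, c3]
          · rw [q1, hr0, hfl, Yc_two]
            exact hY
    · -- `X = 3`
      have ht : tile w'.1.1 = tile w.1.1 := by rw [hfl]; exact tile_three _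
      rcases (mul_eq_zero.mp (c3.symm.trans hX)) with hr | hu0
      · exact ⟨p, p, ⟨_, _, hRl⟩, hzero ht hr, EqvGen.refl _⟩
      · have hu2 : u = 1 := by linarith
        subst hu2
        have hside : (fl w.1.1 3).1 = w.1.1.1 := rfl
        refine ⟨p, p, ⟨_, _, hRl⟩, ⟨y, 1, hu, hu1, hy, hx, ?_, ?_, ?_, ?_, ?_, ?_, ?_, ?_⟩,
            EqvGen.refl _⟩
        · intro h0
          rw [hfl, hside] at h0
          exact hs h0
        · intro h0
          rw [hfl, hside] at h0
          exact hs' h0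
        · rw [hf, ht]
        · rw [hh, hc]
        · rw [hc, c1]
        · rw [hc, c2]
        · rw [hc, c3]
        · rw [hfl, Yc_three]
          exact hY
  obtain ⟨q, q', h1, h2, h3⟩ := key
  exact (rel_fibre h h1).trans _ _ _ (h3.trans _ _ _ (rel_fibre h2 h'))

theorem M4_Lf {w : W} {p : V} (h : Rel w p) : Lf w p :=
  ⟨0, p, by push_cast; ring, (TTn_zero _).symm, rfl, h⟩

theorem vstep_rel {w w' : W} {p p' : V} (hp : VStep' p p') (h : Lf w p) (h' : Lf w' p') :
    EqvGen WStep w w' := by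
  cases hp with
  | base hb =>
    cases hb with
    | T hx hf hh =>
      refine Lf_same (p := p') ?_ h'
      obtain ⟨n, p1, k1, k2, k3, k4⟩ := h
      refine ⟨n - 1, p1, ?_, ?_, ?_, k4⟩
      · rw [k1, hx]
        push_cast
        ring
      · rw [k2, hf, ← TTn_one, TTn_add]
        congr 1
        ring
      · rw [k3, hh]
    | S h1 hp0 hq0 hx hf =>
      obtain ⟨w0, hw0⟩ := rel_exists' p h1
      have hw0' := hw0
      obtain ⟨y, u, hu, hu1, hy, hxx, hs, hs', hff, hh, c1, c2, c3, hY⟩ := hw0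
      have hsd : (fl w0.1.1 0).1 = !w0.1.1.1 := M4_side_zero _
      have hR : Rel (M2_mv w0 (fl w0.1.1 0)) p' := by
        refine ⟨y, u, hu, hu1, hy, by rw [hx, abs_neg]; exact h1, ?_, ?_, ?_, ?_, ?_, ?_, ?_, ?_⟩
        · intro h0
          change (fl w0.1.1 0).1 = true at h0
          rw [hsd] at h0
          have : w0.1.1.1 = false := by simpa using h0
          rw [hx]
          linarith [hs' this]
        · intro h0
          change (fl w0.1.1 0).1 = false at h0
          rw [hsd] at h0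
          have : w0.1.1.1 = true := by simpa using h0
          rw [hx]
          linarith [hs this]
        · change p'.1.2.1 = chi (tile (fl w0.1.1 0)) y
          rw [hf, hff, tile_zero, SS_chi _ (cr_tile _)]
        · change p'.1.2.2 = w0.1.2 0
          rw [← hh, hq0, hp0]
        · change w0.1.2 1 = 1 - rad p'.1.1 y
          rw [hx, M4_rad_neg, c1]
        · change w0.1.2 2 = rad p'.1.1 y * u
          rw [hx, M4_rad_neg, c2]
        · change w0.1.2 3 = rad p'.1.1 y * (1 - u)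
          rw [hx, M4_rad_neg, c3]
        · change y = rad p'.1.1 y * Yc (fl w0.1.1 0) u
          rw [hx, M4_rad_neg, Yc_zero]
          exact hY
      have s1 : EqvGen WStep w0 (M2_mv w0 (fl w0.1.1 0)) := by
        have := M2_step w0 w0.1.1 0 (by rw [← hh]; exact hp0)
        rwa [M2_eq rfl] at this
      exact (Lf_same h (M4_Lf hw0')).trans _ _ _ (s1.trans _ _ _ (Lf_same (M4_Lf hR) h'))
  | C k hk h1 h2 hp1 hq1 hh =>
    have hpos : p.1.2.2 ≠ 0 := by
      intro h0
      refine p.2.2 h0 ⟨0, by push_cast; rw [sub_zero]; exact h1, k, hk, ?_⟩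
      rw [hp1]
      congr 1
      push_cast
      ring
    obtain ⟨p0, hp0⟩ : ∃ p0 : V, p0.1 = (0, ((lev k : ℝ) : OnePoint ℝ), p.1.2.2) :=
      ⟨⟨(0, ((lev k : ℝ) : OnePoint ℝ), p.1.2.2), p.2.1, fun h0 => absurd h0 hpos⟩, rfl⟩
    have hmid : ∀ (w0 : W) (q : V), q.1.2.1 = ((lev k : ℝ) : OnePoint ℝ) → q.1.2.2 = p.1.2.2 →
        Rel w0 q → Rel w0 p0 := by
      intro w0 q hq hqh hR
      obtain ⟨y, u, hu, hu1, hy, hxx, hs, hs', hff, hh0, c1, c2, c3, hY⟩ := hR
      have hy1 : |y| = 1 := by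
        by_contra hne
        exact chi_interior (cr_tile w0.1.1) hk (lt_of_le_of_ne hy hne) (hff.symm.trans hq)
      have hr : rad q.1.1 y = 1 := M3_rad_one hy1
      have hr0 : rad p0.1.1 y = 1 := M3_rad_one hy1
      have hx0 : p0.1.1 = 0 := by rw [hp0]
      refine ⟨y, u, hu, hu1, hy, by rw [hx0, abs_zero]; norm_num, fun _ => hx0.ge, fun _ => hx0.le,
        ?_, ?_, ?_, ?_, ?_, ?_⟩
      · rw [hp0]
        exact hq.symm.trans hff
      · rw [hp0]
        exact hqh.symm.trans hh0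
      · rw [hr0, c1, hr]
      · rw [hr0, c2, hr]
      · rw [hr0, c3, hr]
      · rw [hr0]
        rw [hr] at hY
        exact hY
    obtain ⟨w0, hw0⟩ := rel_exists' p h1
    obtain ⟨w1, hw1⟩ := rel_exists' p' h2
    exact (Lf_same h (M4_Lf hw0)).trans _ _ _ ((rel_same (hmid w0 p hp1 rfl hw0)
      (hmid w1 p' hq1 hh hw1)).trans _ _ _ (Lf_same (M4_Lf hw1) h'))

end Pool.AML
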