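import Pool.Agent.AML.M.M4

/-! [AML-M5] The equivalence `w ~ w' ↔ p ~' p'` for related pairs.

`→`: induction on `EqvGen WStep w w'` for the statement `∀ p p', Rel w p → Rel w' p' → EqvGen VStep' p p'` (`rel`: `wstep_rel`; `refl`: `rel_fibre`;
`trans`: `rel_exists` for the middle point). `←`: induction on `EqvGen VStep' p p'` for the statement
`∀ w w', Lf w p → Lf w' p' → EqvGen WStep w w'` (`rel`: `vstep_rel`, `refl`: `Lf_same`, `trans`: `Lf_exists`); `Rel w p → Lf w p` with `n = 0`
(`TTn_zero`).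
`rel_sur`: for `p ∈ V` let `n` be the nearest integer to `x`; `p' = T^{-n} p ∈ V` is in the strip (a slit is invariant under translation), `rel_exists'`,
and `eqvGen_T` (G6) lifted to `VStep'` by `VStep'.base`. -/

set_option linter.style.longLine false

open Topology Set Relation

namespace Pool.AML

theorem M5_fwd {w w' : W} (hw : EqvGen WStep w w') :
    ∀ p p' : V, Rel w p → Rel w' p' → EqvGen VStep' p p' := by
  induction hw with
  | rel x y hxy => exact fun p p' h h' => wstep_rel hxy h h'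
  | refl x => exact fun p p' h h' => rel_fibre h h'
  | symm x y _ ih => exact fun p p' h h' => EqvGen.symm _ _ (ih p' p h' h)
  | trans x y z _ _ ih1 ih2 =>
    intro p p' h h'
    obtain ⟨q, hq⟩ := rel_exists y
    exact EqvGen.trans _ _ _ (ih1 p q h hq) (ih2 q p' hq h')

theorem M5_bwd {p p' : V} (hp : EqvGen VStep' p p') :
    ∀ w w' : W, Lf w p → Lf w' p' → EqvGen WStep w w' := by
  induction hp with
  | rel x y hxy => exact fun w w' h h' => vstep_rel hxy h h'
  | refl x => exact fun w w' h h' => Lf_same h h'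
  | symm x y _ ih => exact fun w w' h h' => EqvGen.symm _ _ (ih w' w h' h)
  | trans x y z _ _ ih1 ih2 =>
    intro w w' h h'
    obtain ⟨v, hv⟩ := Lf_exists y
    exact EqvGen.trans _ _ _ (ih1 w v h hv) (ih2 v w' hv h')

theorem M5_Lf {w : W} {p : V} (h : Rel w p) : Lf w p :=
  ⟨0, p, by rw [Int.cast_zero, add_zero], by rw [TTn_zero], rfl, h⟩

theorem rel_iff (w w' : W) (p p' : V) (h : Rel w p) (h' : Rel w' p') :
    EqvGen WStep w w' ↔ EqvGen VStep' p p' :=
  ⟨fun hw => M5_fwd hw p p' h h', fun hp => M5_bwd hp w w' (M5_Lf h) (M5_Lf h')⟩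

theorem rel_sur (p : V) : ∃ w : W, ∃ p' : V, Rel w p' ∧ EqvGen VStep' p' p := by
  obtain ⟨w, n, p', hx, hf, hh, hr⟩ := Lf_exists p
  refine ⟨w, p', hr, EqvGen.symm _ _ ?_⟩
  exact EqvGen.mono (fun a b hab => VStep'.base a b hab) _ _ (eqvGen_T p p' n hx hf hh)

end Pool.AML
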