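import Pool.Agent.AML.M.M1

/-! [AML-M6] First closedness statement: for `D ⊆ V` closed, `{w | ∃ p ∈ D, Rel w p}` is closed in `W`.

`W` is the finite union of the closed and open pieces `{w | w.1.1 = φ}` (the flag set is discrete), so fix `φ`. In the space
`W × ℝ × ℝ × ℝ ∋ (w, x, y, u)` consider the set `K` of all points with `w.1.1 = φ`, `0 ≤ u ≤ 1`, `|y| ≤ 1`, `|x| ≤ 1/2`, side condition, `w 1 = 1 - rad x y`,
`w 2 = rad x y * u`, `w 3 = rad x y * (1 - u)`, `y = rad x y * Yc φ u`: it is closed (`continuousOn_Yc` on `u ∈ [0,1]`; replace `u` by the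
projection `max 0 (min u 1)` to have a globally continuous function), and on `K` the point `(x, chi (tile φ) y, w 0)` lies in `V` (`rel_mem`: if `w 0 = 0` and it
is on a slit then `rad = 1`, `u = 0`, `w 3 = 1`, contradiction with `w ∈ W`). So `K → V` is a continuous map, the preimage `K_D` of `D` is closed in `K`,
hence in `W × [-1/2,1/2] × [-1,1] × [0,1]`, and the projection to `W` along the compact factor is a closed map
(`isClosedMap_fst_of_compactSpace`). Its image is the piece `w.1.1 = φ` of the set. -/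

set_option linter.style.longLine false

open Topology Set Relation

namespace Pool.AML

/-- parameters -/
def M6_K : Set (ℝ × ℝ × ℝ) := Icc (-(1 / 2)) (1 / 2) ×ˢ Icc (-1) 1 ×ˢ Icc 0 1

theorem M6_compact : IsCompact M6_K := isCompact_Icc.prod (isCompact_Icc.prod isCompact_Icc)

instance M6_cs : CompactSpace M6_K := isCompact_iff_compactSpace.1 M6_compact

/-- the piece of the flag `φ` -/
def M6_T (D' : Set (ℝ × OnePoint ℝ × ℝ)) (φ : Flag) : Set (W × M6_K) :=
  {z | z.1.1.1 = φ ∧ (φ.1 = true → 0 ≤ z.2.1.1) ∧ (φ.1 = false → z.2.1.1 ≤ 0) ∧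
    z.1.1.2 1 = 1 - rad z.2.1.1 z.2.1.2.1 ∧ z.1.1.2 2 = rad z.2.1.1 z.2.1.2.1 * z.2.1.2.2 ∧
    z.1.1.2 3 = rad z.2.1.1 z.2.1.2.1 * (1 - z.2.1.2.2) ∧
    z.2.1.2.1 = rad z.2.1.1 z.2.1.2.1 * Yc φ z.2.1.2.2 ∧
    (z.2.1.1, chi (tile φ) z.2.1.2.1, z.1.1.2 0) ∈ D'}

theorem M6_T_closed {D' : Set (ℝ × OnePoint ℝ × ℝ)} (hD' : IsClosed D') (φ : Flag) :
    IsClosed (M6_T D' φ) := by
  have cw : Continuous fun z : W × M6_K => z.1.1 := continuous_subtype_val.comp continuous_fst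
  have ck : Continuous fun z : W × M6_K => z.2.1 := continuous_subtype_val.comp continuous_snd
  have cφ : Continuous fun z : W × M6_K => z.1.1.1 := continuous_fst.comp cw
  have cμ : ∀ i : Fin 4, Continuous fun z : W × M6_K => z.1.1.2 i := fun i =>
    (continuous_apply i).comp (continuous_snd.comp cw)
  have cx : Continuous fun z : W × M6_K => z.2.1.1 := continuous_fst.comp ck
  have cy : Continuous fun z : W × M6_K => z.2.1.2.1 := continuous_fst.comp (continuous_snd.comp ck)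
  have cu : Continuous fun z : W × M6_K => z.2.1.2.2 := continuous_snd.comp (continuous_snd.comp ck)
  have cr : Continuous fun z : W × M6_K => rad z.2.1.1 z.2.1.2.1 := by
    unfold rad
    fun_prop
  have cY : Continuous fun z : W × M6_K => Yc φ z.2.1.2.2 :=
    (continuousOn_Yc φ).comp_continuous cu fun z => z.2.2.2.2
  have cc : Continuous fun z : W × M6_K => (z.2.1.1, chi (tile φ) z.2.1.2.1, z.1.1.2 0) :=
    cx.prodMk (((continuous_chi _).comp cy).prodMk (cμ 0))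
  have e : M6_T D' φ = {z | z.1.1.1 = φ} ∩ ((⋂ _ : φ.1 = true, {z | 0 ≤ z.2.1.1}) ∩
      ((⋂ _ : φ.1 = false, {z | z.2.1.1 ≤ 0}) ∩ ({z | z.1.1.2 1 = 1 - rad z.2.1.1 z.2.1.2.1} ∩
      ({z | z.1.1.2 2 = rad z.2.1.1 z.2.1.2.1 * z.2.1.2.2} ∩
      ({z | z.1.1.2 3 = rad z.2.1.1 z.2.1.2.1 * (1 - z.2.1.2.2)} ∩
      ({z | z.2.1.2.1 = rad z.2.1.1 z.2.1.2.1 * Yc φ z.2.1.2.2} ∩
      (fun z : W × M6_K => (z.2.1.1, chi (tile φ) z.2.1.2.1, z.1.1.2 0)) ⁻¹' D')))))) := by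
    ext z
    simp only [M6_T, mem_inter_iff, mem_iInter, mem_preimage, Set.mem_ofPred_eq]
  rw [e]
  refine IsClosed.inter ?_ (IsClosed.inter ?_ (IsClosed.inter ?_ (IsClosed.inter ?_
    (IsClosed.inter ?_ (IsClosed.inter ?_ (IsClosed.inter ?_ ?_))))))
  · exact (isClosed_singleton (x := φ)).preimage cφ
  · exact isClosed_iInter fun _ => isClosed_le continuous_const cx
  · exact isClosed_iInter fun _ => isClosed_le cx continuous_const
  · exact isClosed_eq (cμ 1) (continuous_const.sub cr)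
  · exact isClosed_eq (cμ 2) (cr.mul cu)
  · exact isClosed_eq (cμ 3) (cr.mul (continuous_const.sub cu))
  · exact isClosed_eq cy (cr.mul cY)
  · exact hD'.preimage cc

theorem closed_W (D : Set V) (hD : IsClosed D) : IsClosed {w : W | ∃ p ∈ D, Rel w p} := by
  obtain ⟨D', hD', hDD⟩ := isClosed_induced_iff.1 hD
  have hmem : ∀ p : V, p ∈ D ↔ p.1 ∈ D' := fun p => by
    rw [← hDD]
    rfl
  have hcl : IsClosed (Prod.fst '' (⋃ φ : Flag, M6_T D' φ)) :=
    isClosedMap_fst_of_compactSpace _ (isClosed_iUnion_of_finite fun φ => M6_T_closed hD' φ)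
  have e : {w : W | ∃ p ∈ D, Rel w p} = Prod.fst '' (⋃ φ : Flag, M6_T D' φ) := by
    ext w
    constructor
    · rintro ⟨p, hp, y, u, h1, h2, h3, h4, h5, h6, h7, h8, h9, h10, h11, h12⟩
      refine ⟨(w, ⟨(p.1.1, y, u), abs_le.1 h4, abs_le.1 h3, h1, h2⟩), mem_iUnion.2 ⟨w.1.1, ?_⟩, rfl⟩
      refine ⟨rfl, h5, h6, h9, h10, h11, h12, ?_⟩
      show (p.1.1, chi (tile w.1.1) y, w.1.2 0) ∈ D'
      rw [← h7, ← h8]
      exact (hmem p).1 hp
    · rintro ⟨⟨w', ⟨⟨x, y, u⟩, hx, hy, hu⟩⟩, hz, rfl⟩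
      obtain ⟨φ, h1, h2, h3, h4, h5, h6, h7, h8⟩ := mem_iUnion.1 hz
      dsimp only at h1 h2 h3 h4 h5 h6 h7 h8 hx hy hu
      subst h1
      have hxa : |x| ≤ 1 / 2 := abs_le.2 hx
      have hya : |y| ≤ 1 := abs_le.2 hy
      refine ⟨⟨(x, chi (tile w'.1.1) y, w'.1.2 0), w'.2.1 0, fun h0 hsl => ?_⟩, ?_, y, u, hu.1, hu.2, hya, hxa,
        h2, h3, rfl, rfl, h4, h5, h6, h7⟩
      · obtain ⟨h9, h10⟩ := rel_mem w'.1.1 hu.1 hu.2 hya hxa h2 h3 h7 hsl
        apply w'.2.2.2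
        refine ⟨h0, ?_⟩
        rw [h6, h9, h10]
        norm_num
      · exact (hmem _).2 h8
  rw [e]
  exact hcl

end Pool.AML
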