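import Pool.Agent.AML.M.M1

/-! [AML-M7] Second closedness statement: for `C ⊆ W` closed, `{p | ∃ w ∈ C, Rel w p}` is closed in `V`.

Finite union over the flags `φ`. In `V × [-1,1] × [0,1] ∋ (p, y, u)` consider the closed set `K` given by `|p.x| ≤ 1/2`, side condition,
`p.f = chi (tile φ) y`, `y = rad p.x y * Yc φ u`. On `K` the point `(φ, (h, 1 - r, r u, r (1 - u)))`, `r = rad p.x y`, belongs to `W`: otherwise
`h = 0` and `r (1 - u) = 1`, i.e. `r = 1`, `u = 0`; then `(x, f)` is on a slit, contradiction with `p ∈ V` (same argument as in M1, `rel_exists'`; it is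
stated as `rel_slit` in this file for re-use). The map `K → W` is continuous, so the preimage of `C` is closed, and the projection along the compact
factor `[-1,1] × [0,1]` is closed. -/

set_option linter.style.longLine false

open Topology Set Relation

namespace Pool.AML

private theorem m7_cr : ∀ k : Fin 54, cr k = false → ∃ j : Fin 54, cr j = true ∧ tt j = k := by
  decide +kernel

private theorem m7_tinv_some (k j : Fin 54) (h : tinv k = some j) : cr j = true ∧ tt j = k := by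
  have h1 := List.find?_some h
  simpa using h1

private theorem m7_tinv_none : ∀ k : Fin 54, tinv k = none → cr k = true := by
  decide +kernel

private theorem m7_half {x y : ℝ} (hy : |y| < 1) (hr : rad x y = 1) : |x| = 1 / 2 := by
  unfold rad at hr
  have h1 : (1 - |y|) * (2 * |x| - 1) = 0 := by linarith
  have h2 : (1 - |y|) ≠ 0 := by linarith
  have h3 := (mul_eq_zero.1 h1).resolve_left h2
  linarith

/-- if `r = 1` and `u = 0` then the point is on a slit. -/
theorem rel_slit (φ : Flag) {x y : ℝ} (hy : |y| ≤ 1) (hx : |x| ≤ 1 / 2)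
    (hs : φ.1 = true → 0 ≤ x) (hs' : φ.1 = false → x ≤ 0) (hr : rad x y = 1) (h : y = Yc φ 0) :
    slit x (chi (tile φ) y) := by
  obtain ⟨s, a⟩ := φ
  cases s with
  | true =>
    have hx0 : 0 ≤ x := hs rfl
    rw [h, chi_node_left]
    by_cases hc : cr (nodeC a) = true
    · refine ⟨0, by simpa using hx, nodeC a, hc, ?_⟩
      simp
    · have hc' : cr (nodeC a) = false := by simpa using hc
      have h1 : (fl (true, a) 2).1 = true := by
        simp [fl, hc']
      have h2 : |y| < 1 := by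
        rw [h]
        exact Yc_dummy (true, a) h1
      have h3 := m7_half h2 hr
      rw [abs_of_nonneg hx0] at h3
      obtain ⟨j, hj1, hj2⟩ := m7_cr _ hc'
      refine ⟨1, ?_, j, hj1, ?_⟩
      · rw [h3]
        norm_num [abs_le]
      · rw [← hj2, lev_tt j hj1]
        simp
  | false =>
    have hx0 : x ≤ 0 := hs' rfl
    rw [h, chi_node_right]
    rcases hc : tinv (nodeC a) with _ | j
    · have h1 : (fl (false, a) 2).1 = false := by
        simp [fl, hc]
      have h2 : |y| < 1 := by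
        rw [h]
        exact Yc_dummy (false, a) h1
      have h3 := m7_half h2 hr
      rw [abs_of_nonpos hx0] at h3
      refine ⟨-1, ?_, nodeC a, m7_tinv_none _ hc, ?_⟩
      · have h4 : x = -(1 / 2) := by linarith
        rw [h4]
        norm_num [abs_le]
      · congr 1
        push_cast
        ring
    · obtain ⟨hj1, hj2⟩ := m7_tinv_some _ _ hc
      refine ⟨0, by simpa using hx, j, hj1, ?_⟩
      rw [← hj2, lev_tt j hj1]
      simp

noncomputable section

/-- the coordinate with the clamped parameter. -/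
private def m7_Y (φ : Flag) (u : ℝ) : ℝ := Yc φ (max 0 (min u 1))

private theorem m7_Y_cont (φ : Flag) : Continuous (m7_Y φ) := by
  have h1 : Continuous (fun u : ℝ => max 0 (min u 1)) := by fun_prop
  refine (continuousOn_Yc φ).comp_continuous h1 (fun u => ⟨le_max_left _ _, ?_⟩)
  exact max_le zero_le_one (min_le_right _ _)

private theorem m7_Y_eq (φ : Flag) {u : ℝ} (h0 : 0 ≤ u) (h1 : u ≤ 1) : m7_Y φ u = Yc φ u := by
  unfold m7_Y
  rw [min_eq_left h1, max_eq_right h0]

private abbrev m7_K : Type := V × (Icc (-1 : ℝ) 1) × (Icc (0 : ℝ) 1)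

private def m7_S (φ : Flag) : Set m7_K :=
  {z | |z.1.1.1| ≤ 1 / 2 ∧ (φ.1 = true → 0 ≤ z.1.1.1) ∧ (φ.1 = false → z.1.1.1 ≤ 0) ∧
    z.1.1.2.1 = chi (tile φ) z.2.1.1 ∧ z.2.1.1 = rad z.1.1.1 z.2.1.1 * m7_Y φ z.2.2.1}

private theorem m7_V_cont : Continuous (fun p : V => p.1) := continuous_subtype_val

private theorem m7_S_closed (φ : Flag) : IsClosed (m7_S φ) := by
  have hx : Continuous (fun z : m7_K => z.1.1.1) :=
    (continuous_fst.comp m7_V_cont).comp continuous_fst
  have hf : Continuous (fun z : m7_K => z.1.1.2.1) :=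
    ((continuous_fst.comp continuous_snd).comp m7_V_cont).comp continuous_fst
  have hy : Continuous (fun z : m7_K => z.2.1.1) :=
    continuous_subtype_val.comp (continuous_fst.comp continuous_snd)
  have hu : Continuous (fun z : m7_K => z.2.2.1) :=
    continuous_subtype_val.comp (continuous_snd.comp continuous_snd)
  have hr : Continuous (fun z : m7_K => rad z.1.1.1 z.2.1.1) := by
    unfold rad
    exact ((continuous_const.mul hx.abs).mul (continuous_const.sub hy.abs)).add hy.abs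
  have c1 : IsClosed {z : m7_K | |z.1.1.1| ≤ 1 / 2} := isClosed_le hx.abs continuous_const
  have c2 : IsClosed {z : m7_K | φ.1 = true → 0 ≤ z.1.1.1} := by
    by_cases h : φ.1 = true
    · have : {z : m7_K | φ.1 = true → 0 ≤ z.1.1.1} = {z : m7_K | 0 ≤ z.1.1.1} := by
        ext z
        simp [h]
      rw [this]
      exact isClosed_le continuous_const hx
    · have : {z : m7_K | φ.1 = true → 0 ≤ z.1.1.1} = univ := by
        ext z
        simp [h]
      rw [this]
      exact isClosed_univ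
  have c3 : IsClosed {z : m7_K | φ.1 = false → z.1.1.1 ≤ 0} := by
    by_cases h : φ.1 = false
    · have : {z : m7_K | φ.1 = false → z.1.1.1 ≤ 0} = {z : m7_K | z.1.1.1 ≤ 0} := by
        ext z
        simp [h]
      rw [this]
      exact isClosed_le hx continuous_const
    · have : {z : m7_K | φ.1 = false → z.1.1.1 ≤ 0} = univ := by
        ext z
        simp [h]
      rw [this]
      exact isClosed_univ
  have c4 : IsClosed {z : m7_K | z.1.1.2.1 = chi (tile φ) z.2.1.1} :=
    isClosed_eq hf ((continuous_chi _).comp hy)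
  have c5 : IsClosed {z : m7_K | z.2.1.1 = rad z.1.1.1 z.2.1.1 * m7_Y φ z.2.2.1} :=
    isClosed_eq hy (hr.mul ((m7_Y_cont φ).comp hu))
  exact c1.inter (c2.inter (c3.inter (c4.inter c5)))

/-- the coordinates. -/
private def m7_v (z : m7_K) : Fin 4 → ℝ :=
  ![z.1.1.2.2, 1 - rad z.1.1.1 z.2.1.1, rad z.1.1.1 z.2.1.1 * z.2.2.1,
    rad z.1.1.1 z.2.1.1 * (1 - z.2.2.1)]

private theorem m7_v_cont : Continuous m7_v := by
  have hx : Continuous (fun z : m7_K => z.1.1.1) :=
    (continuous_fst.comp m7_V_cont).comp continuous_fst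
  have hh : Continuous (fun z : m7_K => z.1.1.2.2) :=
    ((continuous_snd.comp continuous_snd).comp m7_V_cont).comp continuous_fst
  have hy : Continuous (fun z : m7_K => z.2.1.1) :=
    continuous_subtype_val.comp (continuous_fst.comp continuous_snd)
  have hu : Continuous (fun z : m7_K => z.2.2.1) :=
    continuous_subtype_val.comp (continuous_snd.comp continuous_snd)
  have hr : Continuous (fun z : m7_K => rad z.1.1.1 z.2.1.1) := by
    unfold rad
    exact ((continuous_const.mul hx.abs).mul (continuous_const.sub hy.abs)).add hy.abs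
  refine continuous_pi fun i => ?_
  fin_cases i
  · exact hh
  · exact continuous_const.sub hr
  · exact hr.mul hu
  · exact hr.mul (continuous_const.sub hu)

private theorem m7_mem (φ : Flag) (z : m7_K) (hz : z ∈ m7_S φ) :
    (∀ i, 0 ≤ ((φ, m7_v z) : Flag × (Fin 4 → ℝ)).2 i) ∧
      ((φ, m7_v z) : Flag × (Fin 4 → ℝ)).2 1 + ((φ, m7_v z) : Flag × (Fin 4 → ℝ)).2 2 +
        ((φ, m7_v z) : Flag × (Fin 4 → ℝ)).2 3 = 1 ∧
      ¬ (((φ, m7_v z) : Flag × (Fin 4 → ℝ)).2 0 = 0 ∧ ((φ, m7_v z) : Flag × (Fin 4 → ℝ)).2 3 = 1) := by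
  obtain ⟨h1, h2, h3, h4, h5⟩ := hz
  have hy : |(z.2.1.1 : ℝ)| ≤ 1 := abs_le.2 z.2.1.2
  have hu0 : (0 : ℝ) ≤ z.2.2.1 := z.2.2.2.1
  have hu1 : (z.2.2.1 : ℝ) ≤ 1 := z.2.2.2.2
  have hr0 := rad_nonneg (x := z.1.1.1) hy
  have hr1 := rad_le_one h1 hy
  refine ⟨?_, ?_, ?_⟩
  · intro i
    fin_cases i
    · exact z.1.2.1
    · exact sub_nonneg.2 hr1
    · exact mul_nonneg hr0 hu0
    · exact mul_nonneg hr0 (sub_nonneg.2 hu1)
  · change (1 - rad z.1.1.1 z.2.1.1) + rad z.1.1.1 z.2.1.1 * z.2.2.1 +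
      rad z.1.1.1 z.2.1.1 * (1 - z.2.2.1) = 1
    ring
  · rintro ⟨h6, h7⟩
    change z.1.1.2.2 = 0 at h6
    change rad z.1.1.1 z.2.1.1 * (1 - z.2.2.1) = 1 at h7
    have h8 : rad z.1.1.1 z.2.1.1 = 1 := by nlinarith
    have h9 : (z.2.2.1 : ℝ) = 0 := by
      rw [h8] at h7
      linarith
    refine z.1.2.2 h6 ?_
    rw [h4]
    refine rel_slit φ hy h1 h2 h3 h8 ?_
    rw [m7_Y_eq φ hu0 hu1, h8, one_mul, h9] at h5
    exact h5

/-- the map to `W`. -/
private def m7_m (φ : Flag) (z : m7_S φ) : W := ⟨(φ, m7_v z.1), m7_mem φ z.1 z.2⟩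

private theorem m7_m_cont (φ : Flag) : Continuous (m7_m φ) := by
  have h1 : Continuous (fun z : m7_S φ => ((φ, m7_v z.1) : Flag × (Fin 4 → ℝ))) :=
    continuous_const.prodMk (m7_v_cont.comp continuous_subtype_val)
  exact Continuous.subtype_mk h1 (fun z => m7_mem φ z.1 z.2)

private theorem m7_image (φ : Flag) (C : Set W) :
    {p : V | ∃ w ∈ C, w.1.1 = φ ∧ Rel w p} =
      Prod.fst '' ((Subtype.val : m7_S φ → m7_K) '' (m7_m φ ⁻¹' C)) := by
  ext p
  constructor
  · rintro ⟨w, hw, hφ, y, u, hu0, hu1, hy, hx, hs, hs', hf, hh, h1, h2, h3, h4⟩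
    let z : m7_K := (p, ⟨y, abs_le.1 hy⟩, ⟨u, hu0, hu1⟩)
    have hz : z ∈ m7_S φ := by
      refine ⟨hx, ?_, ?_, ?_, ?_⟩
      · rw [← hφ]
        exact hs
      · rw [← hφ]
        exact hs'
      · rw [← hφ]
        exact hf
      · change y = rad p.1.1 y * m7_Y φ u
        rw [m7_Y_eq φ hu0 hu1, ← hφ]
        exact h4
    refine ⟨z, ⟨⟨z, hz⟩, ?_, rfl⟩, rfl⟩
    have hwz : m7_m φ ⟨z, hz⟩ = w := by
      apply Subtype.ext
      refine Prod.ext hφ.symm ?_
      change m7_v z = w.1.2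
      funext i
      fin_cases i
      · exact hh
      · exact h1.symm
      · exact h2.symm
      · exact h3.symm
    rw [mem_preimage, hwz]
    exact hw
  · rintro ⟨z, ⟨⟨z', hz'⟩, hC, rfl⟩, rfl⟩
    refine ⟨m7_m φ ⟨z', hz'⟩, hC, rfl, z'.2.1.1, z'.2.2.1, ?_⟩
    obtain ⟨h1, h2, h3, h4, h5⟩ := hz'
    refine ⟨z'.2.2.2.1, z'.2.2.2.2, abs_le.2 z'.2.1.2, h1, h2, h3, h4, rfl, rfl, rfl, rfl, ?_⟩
    rw [m7_Y_eq φ z'.2.2.2.1 z'.2.2.2.2] at h5
    exact h5

theorem closed_V (C : Set W) (hC : IsClosed C) : IsClosed {p : V | ∃ w ∈ C, Rel w p} := by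
  have h1 : {p : V | ∃ w ∈ C, Rel w p} = ⋃ φ : Flag, {p : V | ∃ w ∈ C, w.1.1 = φ ∧ Rel w p} := by
    ext p
    simp only [mem_ofPred_eq, mem_iUnion]
    constructor
    · rintro ⟨w, hw, h⟩
      exact ⟨w.1.1, w, hw, rfl, h⟩
    · rintro ⟨φ, w, hw, _, h⟩
      exact ⟨w, hw, h⟩
  rw [h1]
  refine isClosed_iUnion_of_finite fun φ => ?_
  rw [m7_image]
  refine isClosedMap_fst_of_compactSpace _ ?_
  refine (m7_S_closed φ).isClosedEmbedding_subtypeVal.isClosedMap _ ?_
  exact hC.preimage (m7_m_cont φ)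

end

end Pool.AML
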