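import Pool.Agent.AML.M.M0
import Pool.Agent.AML.M.M5
import Pool.Agent.AML.M.M6
import Pool.Agent.AML.M.M7

/-! [AML-M8] Conclusion of block M: `Quot WStep ≃ₜ Quot VStep'`.

`relHomeo` (M0) with `A = W`, `B = V`, `R = Rel`. `hclB`: for `C ⊆ W` closed and saturated, the set
`{p | ∃ w ∈ C, ∃ p', Rel w p' ∧ EqvGen VStep' p' p}` is the union over `n ∈ ℤ` of the translates `T^n E`, `E = {p | ∃ w ∈ C, Rel w p}`: indeed for such `p`
take `n` with `T^{-n} p` in the strip and `w'` with `Rel w' (T^{-n} p)` (`rel_exists'`); `w' ~ w` by `rel_iff`, so `w' ∈ C`. Each `T^n E` is closed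
(`closed_V`; `T^n` is a homeomorphism of `V`), contained in `{|x - n| ≤ 1/2}`, so the family is locally finite: `LocallyFinite.isClosed_iUnion`. -/

set_option linter.style.longLine false

open Topology Set Relation

namespace Pool.AML

private theorem m8_slit (n : ℤ) (x : ℝ) (f : OnePoint ℝ) (h : slit (x + n) (TTn n f)) : slit x f := by
  obtain ⟨m, hm, k, hk, hf⟩ := h
  refine ⟨m - n, ?_, k, hk, ?_⟩
  · push_cast
    have h1 : x - ((m : ℝ) - n) = x + n - m := by ring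
    rw [h1]
    exact hm
  · induction f using OnePoint.rec with
    | infty =>
      rw [TTn_infty] at hf
      exact absurd hf.symm (OnePoint.coe_ne_infty _)
    | coe y =>
      rw [TTn_coe] at hf
      have h1 := OnePoint.coe_injective hf
      congr 1
      push_cast
      linarith

/-- translation by `n` on `V`. -/
private noncomputable def m8_tau (n : ℤ) (p : V) : V :=
  ⟨(p.1.1 + n, TTn n p.1.2.1, p.1.2.2), p.2.1, fun h hs => p.2.2 h (m8_slit n _ _ hs)⟩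

private theorem m8_tau_cont (n : ℤ) : Continuous (m8_tau n) := by
  have hV : Continuous (fun p : V => p.1) := continuous_subtype_val
  have h1 : Continuous (fun p : V => ((p.1.1 + n, TTn n p.1.2.1, p.1.2.2) : ℝ × OnePoint ℝ × ℝ)) := by
    refine Continuous.prodMk ?_ (Continuous.prodMk ?_ ?_)
    · exact (continuous_fst.comp hV).add continuous_const
    · exact (continuous_TTn n).comp ((continuous_fst.comp continuous_snd).comp hV)
    · exact (continuous_snd.comp continuous_snd).comp hV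
  exact Continuous.subtype_mk h1 (fun p => ⟨p.2.1, fun h hs => p.2.2 h (m8_slit n _ _ hs)⟩)

private theorem m8_pre (E : Set V) (n : ℤ) :
    {p : V | ∃ p' ∈ E, p'.1.1 = p.1.1 + n ∧ p'.1.2.1 = TTn n p.1.2.1 ∧ p'.1.2.2 = p.1.2.2} =
      m8_tau n ⁻¹' E := by
  ext p
  constructor
  · rintro ⟨p', hp', h1, h2, h3⟩
    have h : m8_tau n p = p' := by
      apply Subtype.ext
      exact Prod.ext h1.symm (Prod.ext h2.symm h3.symm)
    rw [mem_preimage, h]
    exact hp'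
  · intro h
    exact ⟨m8_tau n p, h, rfl, rfl, rfl⟩

theorem translates_closed (E : Set V) (hE : IsClosed E) (hE' : ∀ p ∈ E, |p.1.1| ≤ 1 / 2) :
    IsClosed {p : V | ∃ n : ℤ, ∃ p' ∈ E, p'.1.1 = p.1.1 + n ∧ p'.1.2.1 = TTn n p.1.2.1 ∧ p'.1.2.2 = p.1.2.2} := by
  have h1 : {p : V | ∃ n : ℤ, ∃ p' ∈ E, p'.1.1 = p.1.1 + n ∧ p'.1.2.1 = TTn n p.1.2.1 ∧
      p'.1.2.2 = p.1.2.2} = ⋃ n : ℤ, {p : V | ∃ p' ∈ E, p'.1.1 = p.1.1 + n ∧
      p'.1.2.1 = TTn n p.1.2.1 ∧ p'.1.2.2 = p.1.2.2} := by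
    ext p
    simp only [mem_ofPred_eq, mem_iUnion]
  rw [h1]
  refine LocallyFinite.isClosed_iUnion ?_ ?_
  · intro p₀
    have hV : Continuous (fun p : V => p.1.1) :=
      continuous_fst.comp (continuous_subtype_val : Continuous (fun p : V => p.1))
    refine ⟨{p : V | |p.1.1 - p₀.1.1| < 1}, ?_, ?_⟩
    · refine IsOpen.mem_nhds ?_ ?_
      · exact isOpen_lt (hV.sub continuous_const).abs continuous_const
      · simp
    · refine (Set.finite_Icc (⌊-p₀.1.1 - 2⌋) (⌈-p₀.1.1 + 2⌉)).subset ?_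
      rintro n ⟨p, ⟨p', hp', hx, -, -⟩, hp⟩
      have h2 := hE' p' hp'
      rw [hx] at h2
      have h3 : |p.1.1 - p₀.1.1| < 1 := hp
      have h4 := abs_le.1 h2
      have h5 := abs_lt.1 h3
      constructor
      · have h6 : (⌊-p₀.1.1 - 2⌋ : ℝ) ≤ -p₀.1.1 - 2 := Int.floor_le _
        have h7 : ((⌊-p₀.1.1 - 2⌋ : ℤ) : ℝ) ≤ (n : ℝ) := by linarith [h4.1, h5.2]
        exact_mod_cast h7
      · have h6 : -p₀.1.1 + 2 ≤ (⌈-p₀.1.1 + 2⌉ : ℝ) := Int.le_ceil _
        have h7 : (n : ℝ) ≤ ((⌈-p₀.1.1 + 2⌉ : ℤ) : ℝ) := by linarith [h4.2, h5.1]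
        exact_mod_cast h7
  · intro n
    rw [m8_pre]
    exact hE.preimage (m8_tau_cont n)

private theorem m8_lift {p q : V} (n : ℤ) (hx : q.1.1 = p.1.1 + n) (hf : q.1.2.1 = TTn n p.1.2.1)
    (hh : q.1.2.2 = p.1.2.2) : EqvGen VStep' p q := by
  have h1 : VStep ≤ VStep' := fun a b h => VStep'.base a b h
  exact EqvGen.mono h1 p q (eqvGen_T p q n hx hf hh)

theorem partM : Nonempty (Quot WStep ≃ₜ Quot VStep') := by
  refine relHomeo WStep VStep' Rel rel_exists ?_ rel_iff (fun D hD _ => closed_W D hD) ?_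
  · intro b
    obtain ⟨w, p', h1, h2⟩ := rel_sur b
    exact ⟨w, p', h1, h2⟩
  · intro C hC hsat
    have h1 : {b : V | ∃ a ∈ C, ∃ b', Rel a b' ∧ EqvGen VStep' b' b} =
        {p : V | ∃ n : ℤ, ∃ p' ∈ {p : V | ∃ w ∈ C, Rel w p}, p'.1.1 = p.1.1 + n ∧
          p'.1.2.1 = TTn n p.1.2.1 ∧ p'.1.2.2 = p.1.2.2} := by
      ext b
      constructor
      · rintro ⟨a, ha, b', hab, hb⟩
        obtain ⟨w, n, p', hx, hf, hh, hw⟩ := Lf_exists b
        have h2 : EqvGen VStep' b' p' := hb.trans _ _ _ (m8_lift n hx hf hh)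
        have h3 := (rel_iff a w b' p' hab hw).2 h2
        exact ⟨n, p', ⟨w, hsat a w h3 ha, hw⟩, hx, hf, hh⟩
      · rintro ⟨n, p', ⟨w, hw, hr⟩, hx, hf, hh⟩
        exact ⟨w, hw, p', hr, (m8_lift n hx hf hh).symm⟩
    rw [h1]
    refine translates_closed _ (closed_V C hC) ?_
    rintro p ⟨w, hw, y, u, hR⟩
    exact hR.2.2.2.1

end Pool.AML
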